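import Mathlib

namespace Pool.Agent.P.MP_c2502c_co

/-- A drawing in the plane of the graph whose edges are the pairs `(u, v)` with `E u v`:
distinct points for the vertices, and for each edge a Jordan arc between its end points whose
interior meets no vertex. -/
structure PlaneDrawing {V : Type} (E : V → V → Prop) where
  place : V → ℝ × ℝ
  place_inj : Function.Injective place
  curve : ∀ u v, E u v → Path (place u) (place v)
  curve_inj : ∀ u v (h : E u v), Function.Injective (curve u v h)
  curve_avoid : ∀ u v (h : E u v) (t : unitInterval) (w : V), t ≠ 0 → t ≠ 1 →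
    curve u v h t ≠ place w

/-- The open arc of an edge. -/
def openArcOf {V : Type} {E : V → V → Prop} (G : PlaneDrawing E) (u v : V) (h : E u v) :
    Set (ℝ × ℝ) :=
  G.curve u v h '' {t | t ≠ 0 ∧ t ≠ 1}

/-- Every edge is crossed at most `k` times: there are at most `k` pairs (other edge, common point
of the two open arcs). -/
def AtMostCrossed {V : Type} {E : V → V → Prop} (G : PlaneDrawing E) (k : ℕ) : Prop :=
  ∀ u v (h : E u v),
    {q : (V × V) × (ℝ × ℝ) | ∃ h' : E q.1.1 q.1.2, q.1 ≠ (u, v) ∧
      q.2 ∈ openArcOf G u v h ∧ q.2 ∈ openArcOf G q.1.1 q.1.2 h'}.encard ≤ k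

/-- The second coordinate strictly increases along every edge. -/
def DrawnUpward {V : Type} {E : V → V → Prop} (G : PlaneDrawing E) : Prop :=
  ∀ u v (h : E u v), StrictMono fun t : unitInterval => (G.curve u v h t).2

/-- The faces of a drawing: connected components of the complement of its point set. -/
def facesOf {V : Type} {E : V → V → Prop} (G : PlaneDrawing E) : Set (Set (ℝ × ℝ)) :=
  {F | ∃ x, x ∉ Set.range G.place ∪ {p | ∃ u v h, p ∈ openArcOf G u v h} ∧
    F = connectedComponentIn (Set.range G.place ∪ {p | ∃ u v h, p ∈ openArcOf G u v h})ᶜ x}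

/-- Outerpath (directions ignored): a crossing-free drawing with every vertex on an unbounded face,
whose bounded faces can be listed so that two of them have a common boundary edge exactly when
they are consecutive in the list. -/
def IsOuterpathGraph {V : Type} (E : V → V → Prop) : Prop :=
  ∃ G : PlaneDrawing E, AtMostCrossed G 0 ∧
    (∃ F ∈ facesOf G, ¬ Bornology.IsBounded F ∧ ∀ v, G.place v ∈ closure F) ∧
    ∃ (m : ℕ) (f : Fin m → Set (ℝ × ℝ)), Function.Injective f ∧
      Set.range f = {F ∈ facesOf G | Bornology.IsBounded F} ∧
      ∀ i j : Fin m, i ≠ j →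
        ((∃ u v h, openArcOf G u v h ⊆ closure (f i) ∩ closure (f j)) ↔
          (i.val + 1 = j.val ∨ j.val + 1 = i.val))

end Pool.Agent.P.MP_c2502c_co
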