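import Mathlib

namespace Pool.Agent.P.MP_c2502c_co

open Finset

/-- type of the steps: nested strands of geometrically decreasing length, period 222222222 -/
def strandUp (i : ℕ) : Prop :=
  i % 222222222 < 200000000 ∨
  (220000000 ≤ i % 222222222 ∧ i % 222222222 < 222000000) ∨
  (222200000 ≤ i % 222222222 ∧ i % 222222222 < 222220000) ∨
  (222222000 ≤ i % 222222222 ∧ i % 222222222 < 222222200) ∨
  222222220 ≤ i % 222222222

lemma up_strand (ρ : ℕ → ℤ) (a m : ℕ)
    (h : ∀ i, a ≤ i → i + 2 ≤ a + 2 * m → ρ i + 1 ≤ ρ (i + 2)) : ρ a + m ≤ ρ (a + 2 * m) := by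
  induction m with
  | zero => simp
  | succ m ih =>
    have h1 := ih (fun i hi hi' => h i hi (by omega))
    have h2 := h (a + 2 * m) (by omega) (by omega)
    have : a + 2 * (m + 1) = a + 2 * m + 2 := by ring
    rw [this]; push_cast; linarith

lemma lip_strand (ρ : ℕ → ℤ) (a l : ℕ)
    (h : ∀ i, a ≤ i → i < a + l → ρ (i + 1) ≤ ρ i + 5 ∧ ρ i ≤ ρ (i + 1) + 5) :
    ρ (a + l) ≤ ρ a + 5 * l ∧ ρ a ≤ ρ (a + l) + 5 * l := by
  induction l with
  | zero => simp
  | succ l ih =>
    have h1 := ih (fun i hi hi' => h i hi (by omega))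
    have h2 := h (a + l) (by omega) (by omega)
    have : a + (l + 1) = a + l + 1 := by ring
    rw [this]; push_cast; constructor <;> linarith [h1.1, h1.2, h2.1, h2.2]

lemma ivt_up (ρ : ℕ → ℤ) (a l : ℕ) (z : ℤ) (hl : 0 < l) (h1 : ρ a ≤ z) (h2 : z ≤ ρ (a + l)) :
    ∃ i, a ≤ i ∧ i < a + l ∧ ρ i ≤ z ∧ z ≤ ρ (i + 1) := by
  induction l with
  | zero => omega
  | succ l ih =>
    by_cases hz : ρ (a + l) ≤ z
    · exact ⟨a + l, by omega, by omega, hz, by simpa [add_assoc] using h2⟩
    · rcases Nat.eq_zero_or_pos l with rfl | hl'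
      · simp at hz; omega
      · obtain ⟨i, hi1, hi2, hi3⟩ := ih hl' (by omega)
        exact ⟨i, hi1, by omega, hi3⟩

lemma ivt_down (ρ : ℕ → ℤ) (a l : ℕ) (z : ℤ) (hl : 0 < l) (h1 : z ≤ ρ a) (h2 : ρ (a + l) ≤ z) :
    ∃ i, a ≤ i ∧ i < a + l ∧ ρ (i + 1) ≤ z ∧ z ≤ ρ i := by
  obtain ⟨i, h3, h4, h5, h6⟩ := ivt_up (fun i => - ρ i) a l (-z) hl (by simpa) (by simpa)
  exact ⟨i, h3, h4, by simpa using h6, by simpa using h5⟩

/-- nine nested strands cover the last point nine times -/
lemma nest (ρ : ℕ → ℤ) (b : ℕ)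
    (hl : ∀ i, b * 222222222 ≤ i → i < b * 222222222 + 222222222 →
      ρ (i + 1) ≤ ρ i + 5 ∧ ρ i ≤ ρ (i + 1) + 5)
    (hu : ∀ i, b * 222222222 ≤ i → i + 2 ≤ b * 222222222 + 222222222 →
      strandUp i → strandUp (i + 1) → ρ i + 1 ≤ ρ (i + 2))
    (hd : ∀ i, b * 222222222 ≤ i → i + 2 ≤ b * 222222222 + 222222222 →
      ¬ strandUp i → ¬ strandUp (i + 1) → ρ (i + 2) + 1 ≤ ρ i) :
    ∃ S : Finset ℕ, S.card = 9 ∧ ∀ i ∈ S, i < b * 222222222 + 222222222 ∧
      ((ρ i ≤ ρ (b * 222222222 + 222222222) ∧ ρ (b * 222222222 + 222222222) ≤ ρ (i + 1)) ∨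
       (ρ (i + 1) ≤ ρ (b * 222222222 + 222222222) ∧ ρ (b * 222222222 + 222222222) ≤ ρ i)) := by
  obtain ⟨a, ha⟩ : ∃ a, a = b * 222222222 := ⟨_, rfl⟩
  rw [← ha] at hl hu hd ⊢
  have U : ∀ o m : ℕ, o + 2 * m ≤ 222222222 →
      (∀ i, a + o ≤ i → i < a + o + 2 * m → strandUp i) →
      ρ (a + o) + m ≤ ρ (a + o + 2 * m) ∧ ρ (a + o + 2 * m) ≤ ρ (a + o) + 5 * (2 * m : ℕ) := by
    intro o m hm hs
    refine ⟨up_strand ρ (a + o) m fun i h1 h2 =>
      hu i (by omega) (by omega) (hs i h1 (by omega)) (hs (i + 1) (by omega) (by omega)), ?_⟩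
    exact (lip_strand ρ (a + o) (2 * m) fun i h1 h2 => hl i (by omega) (by omega)).1
  have D : ∀ o m : ℕ, o + 2 * m ≤ 222222222 →
      (∀ i, a + o ≤ i → i < a + o + 2 * m → ¬ strandUp i) →
      ρ (a + o + 2 * m) + m ≤ ρ (a + o) ∧ ρ (a + o) ≤ ρ (a + o + 2 * m) + 5 * (2 * m : ℕ) := by
    intro o m hm hs
    refine ⟨?_, (lip_strand ρ (a + o) (2 * m) fun i h1 h2 => hl i (by omega) (by omega)).2⟩
    have := up_strand (fun i => - ρ i) (a + o) m fun i h1 h2 => by
      have := hd i (by omega) (by omega) (hs i h1 (by omega)) (hs (i + 1) (by omega) (by omega))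
      show - ρ i + 1 ≤ - ρ (i + 2)
      linarith
    linarith
  have s0 := U 0 100000000 (by norm_num) (fun i h1 h2 => by unfold strandUp; omega)
  have s1 := D 200000000 10000000 (by norm_num) (fun i h1 h2 => by unfold strandUp; omega)
  have s2 := U 220000000 1000000 (by norm_num) (fun i h1 h2 => by unfold strandUp; omega)
  have s3 := D 222000000 100000 (by norm_num) (fun i h1 h2 => by unfold strandUp; omega)
  have s4 := U 222200000 10000 (by norm_num) (fun i h1 h2 => by unfold strandUp; omega)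
  have s5 := D 222220000 1000 (by norm_num) (fun i h1 h2 => by unfold strandUp; omega)
  have s6 := U 222222000 100 (by norm_num) (fun i h1 h2 => by unfold strandUp; omega)
  have s7 := D 222222200 10 (by norm_num) (fun i h1 h2 => by unfold strandUp; omega)
  have s8 := U 222222220 1 (by norm_num) (fun i h1 h2 => by unfold strandUp; omega)
  simp only [add_assoc, Nat.reduceMul, Nat.reduceAdd, Nat.cast_ofNat, Nat.cast_one, add_zero]
    at s0 s1 s2 s3 s4 s5 s6 s7 s8
  obtain ⟨z, hz⟩ : ∃ z, z = ρ (a + 222222222) := ⟨_, rfl⟩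
  rw [← hz] at s8 ⊢
  obtain ⟨i0, a0, b0, c0⟩ := ivt_up ρ a 200000000 z (by norm_num) (by omega) (by omega)
  obtain ⟨i1, a1, b1, c1⟩ := ivt_down ρ (a + 200000000) 20000000 z (by norm_num) (by omega)
    (by simp only [add_assoc, Nat.reduceAdd]; omega)
  obtain ⟨i2, a2, b2, c2⟩ := ivt_up ρ (a + 220000000) 2000000 z (by norm_num) (by omega)
    (by simp only [add_assoc, Nat.reduceAdd]; omega)
  obtain ⟨i3, a3, b3, c3⟩ := ivt_down ρ (a + 222000000) 200000 z (by norm_num) (by omega)
    (by simp only [add_assoc, Nat.reduceAdd]; omega)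
  obtain ⟨i4, a4, b4, c4⟩ := ivt_up ρ (a + 222200000) 20000 z (by norm_num) (by omega)
    (by simp only [add_assoc, Nat.reduceAdd]; omega)
  obtain ⟨i5, a5, b5, c5⟩ := ivt_down ρ (a + 222220000) 2000 z (by norm_num) (by omega)
    (by simp only [add_assoc, Nat.reduceAdd]; omega)
  obtain ⟨i6, a6, b6, c6⟩ := ivt_up ρ (a + 222222000) 200 z (by norm_num) (by omega)
    (by simp only [add_assoc, Nat.reduceAdd]; omega)
  obtain ⟨i7, a7, b7, c7⟩ := ivt_down ρ (a + 222222200) 20 z (by norm_num) (by omega)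
    (by simp only [add_assoc, Nat.reduceAdd]; omega)
  obtain ⟨i8, a8, b8, c8⟩ := ivt_up ρ (a + 222222220) 2 z (by norm_num) (by omega)
    (by simp only [add_assoc, Nat.reduceAdd]; omega)
  refine ⟨{i0, i1, i2, i3, i4, i5, i6, i7, i8}, ?_, ?_⟩
  · rw [card_insert_of_notMem (by simp; omega), card_insert_of_notMem (by simp; omega),
      card_insert_of_notMem (by simp; omega), card_insert_of_notMem (by simp; omega),
      card_insert_of_notMem (by simp; omega), card_insert_of_notMem (by simp; omega),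
      card_insert_of_notMem (by simp; omega), card_insert_of_notMem (by simp; omega),
      card_singleton]
  · intro i hi
    simp only [mem_insert, mem_singleton] at hi
    rcases hi with rfl | rfl | rfl | rfl | rfl | rfl | rfl | rfl | rfl
    · exact ⟨by omega, Or.inl c0⟩
    · exact ⟨by omega, Or.inr c1⟩
    · exact ⟨by omega, Or.inl c2⟩
    · exact ⟨by omega, Or.inr c3⟩
    · exact ⟨by omega, Or.inl c4⟩
    · exact ⟨by omega, Or.inr c5⟩
    · exact ⟨by omega, Or.inl c6⟩
    · exact ⟨by omega, Or.inr c7⟩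
    · exact ⟨by omega, Or.inl c8⟩

/-- `s` lies strictly between `i` and `i+1` -/
def Btw {L : Type} [LinearOrder L] (K : ℕ → L) (i s : ℕ) : Prop :=
  (K i < K s ∧ K s < K (i + 1)) ∨ (K (i + 1) < K s ∧ K s < K i)

open Classical in
theorem comb {L : Type} [LinearOrder L] (N : ℕ) (hN : N = 1999999998) (K : ℕ → L)
    (hK : ∀ i ≤ N, ∀ j ≤ N, K i = K j → i = j)
    (side : ℕ → Prop) (hside : ∀ i ≤ N, ∀ j ≤ N, side i → ¬ side j → K i < K j)
    (A1 : ∀ i < N, ((range (N + 1)).filter (fun s => Btw K i s)).card ≤ 4)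
    (A2 : ∀ s ≤ N, ((range N).filter (fun i => Btw K i s)).card ≤ 6)
    (A3 : ∀ i, i + 2 ≤ N → (strandUp i ↔ strandUp (i + 1)) → (side i ↔ side (i + 1)) →
      (side (i + 1) ↔ side (i + 2)) →
      ((strandUp i ↔ side i) → K i < K (i + 2)) ∧ (¬ (strandUp i ↔ side i) → K (i + 2) < K i)) :
    False := by
  set r : ℕ → ℕ := fun j => ((range (N + 1)).filter (fun i => K i < K j)).card with hr
  have r_lt : ∀ i ≤ N, ∀ j, K i < K j → r i < r j := by
    intro i hi j hij
    apply card_lt_card
    refine ⟨fun x hx => ?_, fun hx => ?_⟩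
    · simp only [mem_filter] at hx ⊢
      exact ⟨hx.1, hx.2.trans hij⟩
    · have : i ∈ (range (N + 1)).filter (fun x => K x < K i) :=
        hx (mem_filter.2 ⟨mem_range.2 (by omega), hij⟩)
      simp at this
  have r_le : ∀ i ≤ N, ∀ j ≤ N, r i ≤ r j → K i ≤ K j := by
    intro i hi j hj h
    by_contra hc
    have := r_lt j hj i (not_le.1 hc)
    omega
  have r_gap : ∀ i ≤ N, ∀ j, ∀ T : Finset ℕ, T.card ≤ 4 →
      (∀ s ≤ N, K i < K s → K s < K j → s ∈ T) → r j ≤ r i + 5 := by
    intro i hi j T hT hb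
    have : (range (N + 1)).filter (fun x => K x < K j) ⊆
        (range (N + 1)).filter (fun x => K x < K i) ∪ insert i T := by
      intro x hx
      simp only [mem_filter, mem_range, mem_union, mem_insert] at hx ⊢
      rcases lt_trichotomy (K x) (K i) with h | h | h
      · exact Or.inl ⟨hx.1, h⟩
      · exact Or.inr (Or.inl (hK x (by omega) i hi h))
      · exact Or.inr (Or.inr (hb x (by omega) h hx.2))
    have h1 := card_le_card this
    have h2 := card_union_le ((range (N + 1)).filter (fun x => K x < K i)) (insert i T)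
    have h3 := card_insert_le i T
    simp only [hr]
    omega
  have r_step : ∀ i < N, r (i + 1) ≤ r i + 5 ∧ r i ≤ r (i + 1) + 5 := by
    intro i hi
    constructor
    · refine r_gap i (by omega) (i + 1) _ (A1 i hi) fun s hs h1 h2 => ?_
      exact mem_filter.2 ⟨mem_range.2 (by omega), Or.inl ⟨h1, h2⟩⟩
    · refine r_gap (i + 1) (by omega) i _ (A1 i hi) fun s hs h1 h2 => ?_
      exact mem_filter.2 ⟨mem_range.2 (by omega), Or.inr ⟨h1, h2⟩⟩
  have cover : ∀ s ≤ N, ∀ S : Finset ℕ, (∀ i ∈ S, i < N ∧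
      ((K i ≤ K s ∧ K s ≤ K (i + 1)) ∨ (K (i + 1) ≤ K s ∧ K s ≤ K i))) → S.card ≤ 8 := by
    intro s hs S hS
    have : S ⊆ (range N).filter (fun i => Btw K i s) ∪ {s, s - 1} := by
      intro i hi
      obtain ⟨h1, h2⟩ := hS i hi
      simp only [mem_union, mem_filter, mem_range, mem_insert, mem_singleton]
      by_cases e1 : K i = K s
      · exact Or.inr (Or.inl (hK i (by omega) s hs e1))
      by_cases e2 : K (i + 1) = K s
      · have := hK (i + 1) (by omega) s hs e2
        exact Or.inr (Or.inr (by omega))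
      refine Or.inl ⟨h1, ?_⟩
      rcases h2 with h2 | h2
      · exact Or.inl ⟨lt_of_le_of_ne h2.1 e1, lt_of_le_of_ne h2.2 (Ne.symm e2)⟩
      · exact Or.inr ⟨lt_of_le_of_ne h2.1 e2, lt_of_le_of_ne h2.2 (Ne.symm e1)⟩
    have h1 := card_le_card this
    have h2 := card_union_le ((range N).filter (fun i => Btw K i s)) {s, s - 1}
    have h3 : ({s, s - 1} : Finset ℕ).card ≤ 2 := card_le_two
    have h4 := A2 s hs
    omega
  have block : ∃ b < 9, ∀ i, b * 222222222 ≤ i → i < b * 222222222 + 222222222 →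
      (side i ↔ side (i + 1)) := by
    by_contra hc
    push Not at hc
    choose! f hf using hc
    have hne : ((range (N + 1)).filter side).Nonempty := by
      obtain ⟨h1, h2, h3⟩ := hf 0 (by norm_num)
      rcases h3 with h3 | h3
      · exact ⟨f 0, mem_filter.2 ⟨mem_range.2 (by omega), h3.1⟩⟩
      · exact ⟨f 0 + 1, mem_filter.2 ⟨mem_range.2 (by omega), h3.2⟩⟩
    obtain ⟨s, hs, hmax⟩ := exists_max_image _ K hne
    simp only [mem_filter, mem_range] at hs hmax
    have h8 := cover s (by omega) ((range 9).image f) (by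
      intro i hi
      obtain ⟨b, hb, rfl⟩ := mem_image.1 hi
      have hb := mem_range.1 hb
      obtain ⟨h1, h2, h3⟩ := hf b hb
      refine ⟨by omega, ?_⟩
      rcases h3 with h3 | h3
      · exact Or.inl ⟨hmax _ ⟨by omega, h3.1⟩, (hside s (by omega) _ (by omega) hs.2 h3.2).le⟩
      · exact Or.inr ⟨hmax _ ⟨by omega, h3.2⟩, (hside s (by omega) _ (by omega) hs.2 h3.1).le⟩)
    rw [card_image_of_injOn] at h8
    · simp at h8
    · intro b hb b' hb' hbb
      have hb := mem_range.1 (mem_coe.1 hb)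
      have hb' := mem_range.1 (mem_coe.1 hb')
      obtain ⟨h1, h2, -⟩ := hf b hb
      obtain ⟨h3, h4, -⟩ := hf b' hb'
      omega
  obtain ⟨b, hb, hsw⟩ := block
  have hconst : ∀ l, l ≤ 222222222 → (side (b * 222222222 + l) ↔ side (b * 222222222)) := by
    intro l
    induction l with
    | zero => simp
    | succ l ih =>
      intro hl
      have := hsw (b * 222222222 + l) (by omega) (by omega)
      rw [← ih (by omega), this, add_assoc]
  have hconst' : ∀ i, b * 222222222 ≤ i → i ≤ b * 222222222 + 222222222 →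
      (side i ↔ side (b * 222222222)) := by
    intro i h1 h2
    have := hconst (i - b * 222222222) (by omega)
    rwa [show b * 222222222 + (i - b * 222222222) = i by omega] at this
  by_cases hs : side (b * 222222222)
  · obtain ⟨S, hS, hS'⟩ := nest (fun i => (r i : ℤ)) b
      (fun i h1 h2 => by have := r_step i (by omega); omega)
      (fun i h1 h2 u1 u2 => by
        have t0 := (hconst' i h1 (by omega)).2 hs
        have := (A3 i (by omega) (iff_of_true u1 u2) (hsw i h1 (by omega)) (hsw (i + 1) (by omega)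
          (by omega))).1 (iff_of_true u1 t0)
        have := r_lt i (by omega) _ this
        omega)
      (fun i h1 h2 u1 u2 => by
        have t0 := (hconst' i h1 (by omega)).2 hs
        have := (A3 i (by omega) (iff_of_false u1 u2) (hsw i h1 (by omega)) (hsw (i + 1) (by omega)
          (by omega))).2 (fun h => u1 (h.2 t0))
        have := r_lt (i + 2) (by omega) _ this
        omega)
    have := cover (b * 222222222 + 222222222) (by omega) S (by
      intro i hi
      obtain ⟨h1, h2⟩ := hS' i hi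
      refine ⟨by omega, ?_⟩
      rcases h2 with h2 | h2
      · exact Or.inl ⟨r_le _ (by omega) _ (by omega) (by omega), r_le _ (by omega) _ (by omega)
          (by omega)⟩
      · exact Or.inr ⟨r_le _ (by omega) _ (by omega) (by omega), r_le _ (by omega) _ (by omega)
          (by omega)⟩)
    omega
  · obtain ⟨S, hS, hS'⟩ := nest (fun i => - (r i : ℤ)) b
      (fun i h1 h2 => by have := r_step i (by omega); omega)
      (fun i h1 h2 u1 u2 => by
        have t0 : ¬ side i := fun h => hs ((hconst' i h1 (by omega)).1 h)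
        have := (A3 i (by omega) (iff_of_true u1 u2) (hsw i h1 (by omega)) (hsw (i + 1) (by omega)
          (by omega))).2 (fun h => t0 (h.1 u1))
        have := r_lt (i + 2) (by omega) _ this
        omega)
      (fun i h1 h2 u1 u2 => by
        have t0 : ¬ side i := fun h => hs ((hconst' i h1 (by omega)).1 h)
        have := (A3 i (by omega) (iff_of_false u1 u2) (hsw i h1 (by omega)) (hsw (i + 1) (by omega)
          (by omega))).1 (iff_of_false u1 t0)
        have := r_lt i (by omega) _ this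
        omega)
    have := cover (b * 222222222 + 222222222) (by omega) S (by
      intro i hi
      obtain ⟨h1, h2⟩ := hS' i hi
      refine ⟨by omega, ?_⟩
      rcases h2 with h2 | h2
      · exact Or.inr ⟨r_le _ (by omega) _ (by omega) (by omega), r_le _ (by omega) _ (by omega)
          (by omega)⟩
      · exact Or.inl ⟨r_le _ (by omega) _ (by omega) (by omega), r_le _ (by omega) _ (by omega)
          (by omega)⟩)
    omega

end Pool.Agent.P.MP_c2502c_co
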