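import Mathlib
import Pool.Agent.P.MP_c2502c_co.Comb

namespace Pool.Agent.P.MP_c2502c_co

open Set

/-- An upward drawing with at most one crossing per edge, with edges as functions of the height. -/
structure FModel {V : Type} (E : V → V → Prop) where
  x : V → ℝ
  y : V → ℝ
  X : V → V → ℝ → ℝ
  lt : ∀ u v, E u v → y u < y v
  cont : ∀ u v, E u v → ContinuousOn (X u v) (Icc (y u) (y v))
  lo : ∀ u v, E u v → X u v (y u) = x u
  hi : ∀ u v, E u v → X u v (y v) = x v
  inj : ∀ u v, x u = x v → y u = y v → u = v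
  avoid : ∀ u v w, E u v → y u < y w → y w < y v → X u v (y w) ≠ x w
  one : ∀ u v a b a' b' h h', E u v → E a b → E a' b' → (a, b) ≠ (u, v) → (a', b') ≠ (u, v) →
    y u < h → h < y v → y a < h → h < y b → X u v h = X a b h →
    y u < h' → h' < y v → y a' < h' → h' < y b' → X u v h' = X a' b' h' → (a, b) = (a', b')

namespace FModel

variable {V : Type} {E : V → V → Prop} (M : FModel E)

/-- reflection in the horizontal axis -/
def rev : FModel (fun u v => E v u) where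
  x := M.x
  y := fun v => - M.y v
  X := fun v u h => M.X u v (-h)
  lt := fun u v h => neg_lt_neg (M.lt v u h)
  cont := fun u v h => by
    refine (M.cont v u h).comp continuous_neg.continuousOn ?_
    intro t ht
    exact ⟨by linarith [ht.2], by linarith [ht.1]⟩
  lo := fun u v h => by simpa using M.hi v u h
  hi := fun u v h => by simpa using M.lo v u h
  inj := fun u v h1 h2 => M.inj u v h1 (by linarith)
  avoid := fun u v w h h1 h2 => by
    simpa using M.avoid v u w h (by linarith) (by linarith)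
  one := fun u v a b a' b' h h' e1 e2 e3 n1 n2 p1 p2 p3 p4 p5 q1 q2 q3 q4 q5 => by
    have := M.one v u b a b' a' (-h) (-h') e1 e2 e3
      (fun hh => n1 (by simp only [Prod.mk.injEq] at hh ⊢; exact ⟨hh.2, hh.1⟩))
      (fun hh => n2 (by simp only [Prod.mk.injEq] at hh ⊢; exact ⟨hh.2, hh.1⟩))
      (by linarith) (by linarith) (by linarith) (by linarith) p5
      (by linarith) (by linarith) (by linarith) (by linarith) q5
    simp only [Prod.mk.injEq] at this ⊢
    exact ⟨this.2, this.1⟩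

def CrAt (u v a b : V) (h : ℝ) : Prop :=
  M.y u < h ∧ h < M.y v ∧ M.y a < h ∧ h < M.y b ∧ M.X u v h = M.X a b h

def Meet (e f : Sym2 V) : Prop :=
  ∃ u v a b h, e = s(u, v) ∧ f = s(a, b) ∧ E u v ∧ E a b ∧ M.CrAt u v a b h

lemma Meet.symm {M : FModel E} {e f : Sym2 V} (h : M.Meet e f) : M.Meet f e := by
  obtain ⟨u, v, a, b, h, h1, h2, h3, h4, h5, h6, h7, h8, h9⟩ := h
  exact ⟨a, b, u, v, h, h2, h1, h4, h3, h7, h8, h5, h6, h9.symm⟩

lemma Meet.of_rev {e f : Sym2 V} (h : M.rev.Meet e f) : M.Meet e f := by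
  obtain ⟨u, v, a, b, h, h1, h2, h3, h4, h5, h6, h7, h8, h9⟩ := h
  refine ⟨v, u, b, a, -h, by rw [h1, Sym2.eq_swap], by rw [h2, Sym2.eq_swap], h3, h4, ?_, ?_, ?_,
    ?_, h9⟩
  · have : h < - M.y v := h6
    linarith
  · have : - M.y u < h := h5
    linarith
  · have : h < - M.y b := h8
    linarith
  · have : - M.y a < h := h7
    linarith

lemma Meet.unique {M : FModel E} {e f f' : Sym2 V} (h : M.Meet e f) (h' : M.Meet e f')
    (n : f ≠ e) (n' : f' ≠ e) : f = f' := by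
  obtain ⟨u, v, a, b, h, rfl, rfl, h3, h4, h5, h6, h7, h8, h9⟩ := h
  obtain ⟨u', v', a', b', h', k1, rfl, k3, k4, k5, k6, k7, k8, k9⟩ := h'
  have huv : u = u' ∧ v = v' := by
    rcases Sym2.eq_iff.1 k1 with k | k
    · exact k
    · exfalso
      have := M.lt _ _ h3
      have := M.lt _ _ k3
      rw [← k.1, ← k.2] at this
      linarith
  obtain ⟨rfl, rfl⟩ := huv
  have := M.one u v a b a' b' h h' h3 h4 k4
    (fun hh => n (by simp only [Prod.mk.injEq] at hh; rw [hh.1, hh.2]))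
    (fun hh => n' (by simp only [Prod.mk.injEq] at hh; rw [hh.1, hh.2]))
    h5 h6 h7 h8 h9 k5 k6 k7 k8 k9
  simp only [Prod.mk.injEq] at this
  rw [this.1, this.2]

lemma ne_of_not_cr {u v a b : V} {h : ℝ} (e1 : E u v) (e2 : E a b)
    (n1 : u ≠ a) (n2 : u ≠ b) (n3 : v ≠ a) (n4 : v ≠ b)
    (h1 : M.y u ≤ h) (h2 : h ≤ M.y v) (h3 : M.y a ≤ h) (h4 : h ≤ M.y b)
    (hc : ¬ M.CrAt u v a b h) : M.X u v h ≠ M.X a b h := by
  intro heq
  rcases h1.eq_or_lt with k1 | k1
  · subst k1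
    rw [M.lo u v e1] at heq
    rcases h3.eq_or_lt with k3 | k3
    · rw [← k3, M.lo a b e2] at heq
      exact n1 (M.inj _ _ heq k3.symm)
    rcases h4.eq_or_lt with k4 | k4
    · rw [k4, M.hi a b e2] at heq
      exact n2 (M.inj _ _ heq k4)
    exact M.avoid a b u e2 k3 k4 heq.symm
  rcases h2.eq_or_lt with k2 | k2
  · subst k2
    rw [M.hi u v e1] at heq
    rcases h3.eq_or_lt with k3 | k3
    · rw [← k3, M.lo a b e2] at heq
      exact n3 (M.inj _ _ heq k3.symm)
    rcases h4.eq_or_lt with k4 | k4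
    · rw [k4, M.hi a b e2] at heq
      exact n4 (M.inj _ _ heq k4)
    exact M.avoid a b v e2 k3 k4 heq.symm
  rcases h3.eq_or_lt with k3 | k3
  · subst k3
    rw [M.lo a b e2] at heq
    exact M.avoid u v a e1 k1 k2 heq
  rcases h4.eq_or_lt with k4 | k4
  · subst k4
    rw [M.hi a b e2] at heq
    exact M.avoid u v b e1 k1 k2 heq
  exact hc ⟨k1, k2, k3, k4, heq⟩

lemma sign_eq {u v a b : V} {h1 h2 : ℝ} (e1 : E u v) (e2 : E a b)
    (n1 : u ≠ a) (n2 : u ≠ b) (n3 : v ≠ a) (n4 : v ≠ b) (h12 : h1 ≤ h2)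
    (k1 : M.y u ≤ h1) (k2 : h2 ≤ M.y v) (k3 : M.y a ≤ h1) (k4 : h2 ≤ M.y b)
    (hc : ∀ h, h1 ≤ h → ¬ M.CrAt u v a b h) :
    (M.X u v h1 < M.X a b h1 ↔ M.X u v h2 < M.X a b h2) := by
  have hne : ∀ h, h1 ≤ h → h ≤ h2 → M.X u v h - M.X a b h ≠ 0 := fun h p q =>
    sub_ne_zero.2 (M.ne_of_not_cr e1 e2 n1 n2 n3 n4 (by linarith) (by linarith) (by linarith)
      (by linarith) (hc h p))
  have hcont : ContinuousOn (fun h => M.X u v h - M.X a b h) (Icc h1 h2) :=
    ((M.cont u v e1).mono (Icc_subset_Icc k1 k2)).sub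
      ((M.cont a b e2).mono (Icc_subset_Icc k3 k4))
  constructor
  · intro hlt
    by_contra hge
    have : (0 : ℝ) ∈ Icc (M.X u v h1 - M.X a b h1) (M.X u v h2 - M.X a b h2) :=
      ⟨by linarith, by linarith [not_lt.1 hge]⟩
    obtain ⟨h, hh, h0⟩ := intermediate_value_Icc h12 hcont this
    exact hne h hh.1 hh.2 h0
  · intro hlt
    by_contra hge
    have : (0 : ℝ) ∈ Icc (M.X u v h2 - M.X a b h2) (M.X u v h1 - M.X a b h1) :=
      ⟨by linarith, by linarith [not_lt.1 hge]⟩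
    obtain ⟨h, hh, h0⟩ := intermediate_value_Icc' h12 hcont this
    exact hne h hh.1 hh.2 h0

/-- the point `(p, h)` lies between the curves `c → w` and `d → w` -/
def Ins (c d w : V) (p h : ℝ) : Prop :=
  h < M.y w ∧ ¬ (p < M.X c w h ↔ p < M.X d w h)

lemma ins_edge {c d w a b : V} {h1 h2 : ℝ} (ec : E c w) (ed : E d w) (hd : M.y d < M.y c)
    (e : E a b) (n1 : a ≠ c) (n2 : a ≠ w) (n3 : a ≠ d) (n4 : b ≠ c) (n5 : b ≠ w) (n6 : b ≠ d)
    (k0 : M.y c ≤ h1) (k1 : M.y a ≤ h1) (h12 : h1 ≤ h2) (k2 : h2 ≤ M.y b)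
    (m1 : ∀ h, h1 ≤ h → ¬ M.CrAt a b c w h) (m2 : ∀ h, h1 ≤ h → ¬ M.CrAt a b d w h) :
    M.Ins c d w (M.X a b h1) h1 ↔ M.Ins c d w (M.X a b h2) h2 := by
  unfold Ins
  by_cases hw : h2 < M.y w
  · rw [M.sign_eq e ec n1 n2 n4 n5 h12 k1 k2 k0 hw.le m1,
      M.sign_eq e ed n3 n2 n6 n5 h12 k1 k2 (by linarith) hw.le m2]
    have : h1 < M.y w := by linarith
    tauto
  · by_cases hw1 : h1 < M.y w
    · have hw' := not_lt.1 hw
      rw [M.sign_eq e ec n1 n2 n4 n5 hw1.le k1 (by linarith) k0 le_rfl m1,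
        M.sign_eq e ed n3 n2 n6 n5 hw1.le k1 (by linarith) (by linarith) le_rfl m2,
        M.hi c w ec, M.hi d w ed]
      tauto
    · tauto

lemma not_cr_of_not_meet {u v a b : V} (e1 : E u v) (e2 : E a b)
    (hm : ¬ M.Meet s(u, v) s(a, b)) (h1 : ℝ) : ∀ h, h1 ≤ h → ¬ M.CrAt u v a b h :=
  fun h _ hc => hm ⟨u, v, a, b, h, rfl, rfl, e1, e2, hc⟩

lemma ins_low {c d w : V} (ec : E c w) (p : ℝ) :
    M.Ins c d w p (M.y c) ↔ ¬ (p < M.x c ↔ p < M.X d w (M.y c)) := by
  unfold Ins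
  rw [M.lo c w ec]
  have := M.lt c w ec
  tauto

/-- a transition edge -/
lemma ins_trans {c d w a b : V} (ec : E c w) (ed : E d w) (hd : M.y d < M.y c)
    (e : E a b) (ha : M.y a < M.y c) (hb : M.y c < M.y b) (n3 : a ≠ d) (n5 : b ≠ w)
    (m1 : ¬ M.Meet s(a, b) s(c, w)) (m2 : ¬ M.Meet s(a, b) s(d, w)) :
    M.Ins c d w (M.X a b (M.y c)) (M.y c) ↔ M.Ins c d w (M.x b) (M.y b) := by
  have hw := M.lt c w ec
  rw [← M.hi a b e]
  exact M.ins_edge ec ed hd e (by rintro rfl; linarith) (by rintro rfl; linarith) n3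
    (by rintro rfl; linarith) n5 (by rintro rfl; linarith) le_rfl ha.le hb.le le_rfl
    (M.not_cr_of_not_meet e ec m1 _) (M.not_cr_of_not_meet e ed m2 _)

/-- an edge above the apex -/
lemma ins_run {c d w a b : V} (ec : E c w) (ed : E d w) (hd : M.y d < M.y c)
    (e : E a b) (ha : M.y c < M.y a) (n2 : a ≠ w) (n5 : b ≠ w)
    (m1 : ¬ M.Meet s(a, b) s(c, w)) (m2 : ¬ M.Meet s(a, b) s(d, w)) :
    M.Ins c d w (M.x a) (M.y a) ↔ M.Ins c d w (M.x b) (M.y b) := by
  have hab := M.lt a b e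
  rw [← M.hi a b e, ← M.lo a b e]
  exact M.ins_edge ec ed hd e (by rintro rfl; linarith) n2 (by rintro rfl; linarith)
    (by rintro rfl; linarith) n5 (by rintro rfl; linarith) ha.le le_rfl hab.le le_rfl
    (M.not_cr_of_not_meet e ec m1 _) (M.not_cr_of_not_meet e ed m2 _)

/-- an inward step along an increasing run of three vertices forces the two transition edges to
cross above the apex -/
lemma dir_up {c d d' u1 u2 u3 : V} (e1 : E c u1) (e2 : E c u2) (e12 : E u1 u2) (e23 : E u2 u3)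
    (et : E d u1) (et' : E d' u3) (hd : M.y d < M.y c) (hd' : M.y d' < M.y c) (hdd : d' ≠ d)
    (H : M.X d' u3 (M.y c) = M.X d u1 (M.y c) ∨
      ¬ (M.X d' u3 (M.y c) < M.x c ↔ M.X d' u3 (M.y c) < M.X d u1 (M.y c))) :
    ∃ h, M.y c ≤ h ∧ M.CrAt d' u3 d u1 h := by
  have l1 := M.lt _ _ e1
  have l2 := M.lt _ _ e12
  have l3 := M.lt _ _ e23
  rcases H with H | H
  · exact ⟨M.y c, le_rfl, hd', by linarith, hd, l1, H⟩
  by_contra hno
  push Not at hno
  have s1 := M.sign_eq et' et hdd (by rintro rfl; linarith) (by rintro rfl; linarith)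
    (by rintro rfl; linarith) l1.le hd'.le (by linarith) hd.le le_rfl hno
  have mA : M.Meet s(d', u3) s(c, u1) := by
    by_contra hm
    have s2 := M.sign_eq et' e1 (by rintro rfl; linarith) (by rintro rfl; linarith)
      (by rintro rfl; linarith) (by rintro rfl; linarith) l1.le hd'.le (by linarith) le_rfl le_rfl
      (M.not_cr_of_not_meet et' e1 hm _)
    rw [M.lo c u1 e1, M.hi c u1 e1] at s2
    rw [M.hi d u1 et] at s1
    exact H (s2.trans s1.symm)
  have nA : s(c, u1) ≠ s(d', u3) := by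
    intro hh
    rcases Sym2.eq_iff.1 hh with k | k
    · rw [k.1] at hd'; linarith
    · rw [k.1] at l1; linarith
  have mB : ¬ M.Meet s(d', u3) s(c, u2) := by
    intro hm
    have := mA.unique hm nA (by
      intro hh
      rcases Sym2.eq_iff.1 hh with k | k
      · rw [k.1] at hd'; linarith
      · rw [k.1] at l1; linarith)
    rcases Sym2.eq_iff.1 this with k | k
    · rw [k.2] at l2; linarith
    · rw [k.2] at l1; linarith
  have mC : ¬ M.Meet s(d', u3) s(u1, u2) := by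
    intro hm
    have := mA.unique hm nA (by
      intro hh
      rcases Sym2.eq_iff.1 hh with k | k
      · rw [k.1] at l1; linarith
      · rw [k.1] at l2; linarith)
    rcases Sym2.eq_iff.1 this with k | k
    · rw [k.1] at l1; linarith
    · rw [k.1] at l1; linarith
  have s2 := M.sign_eq et' e2 (h1 := M.y c) (h2 := M.y u2) (by rintro rfl; linarith)
    (by rintro rfl; linarith) (by rintro rfl; linarith) (by rintro rfl; linarith) (by linarith)
    hd'.le l3.le le_rfl le_rfl (M.not_cr_of_not_meet et' e2 mB _)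
  have s3 := M.sign_eq et' e12 (h1 := M.y u1) (h2 := M.y u2) (by rintro rfl; linarith)
    (by rintro rfl; linarith) (by rintro rfl; linarith) (by rintro rfl; linarith) l2.le
    (by linarith) l3.le le_rfl le_rfl (M.not_cr_of_not_meet et' e12 mC _)
  rw [M.lo c u2 e2, M.hi c u2 e2] at s2
  rw [M.lo u1 u2 e12, M.hi u1 u2 e12] at s3
  rw [M.hi d u1 et] at s1
  exact H (s2.trans (s3.symm.trans s1.symm))

end FModel

end Pool.Agent.P.MP_c2502c_co
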