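import Mathlib
import Pool.Agent.P.MP_c2502c_co.Geo

namespace Pool.Agent.P.MP_c2502c_co

open Set

noncomputable def keyOf (x0 : ℝ) (α : ℕ → ℝ) (j : ℕ) : ℕ ×ₗ (ℝ ×ₗ ℕ) :=
  toLex (if x0 < α j then 0 else 1, toLex (α j, j))

lemma key_inj {x0 : ℝ} {α : ℕ → ℝ} {i j : ℕ} (h : keyOf x0 α i = keyOf x0 α j) : i = j := by
  unfold keyOf at h
  have h1 := (Prod.mk.inj (toLex.injective h)).2
  exact (Prod.mk.inj (toLex.injective h1)).2

lemma key_side {x0 : ℝ} {α : ℕ → ℝ} {i j : ℕ} (hi : x0 < α i) (hj : ¬ x0 < α j) :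
    keyOf x0 α i < keyOf x0 α j := by
  unfold keyOf
  rw [Prod.Lex.toLex_lt_toLex]
  simp [hi, hj]

lemma key_same {x0 : ℝ} {α : ℕ → ℝ} {i j : ℕ} (hs : x0 < α i ↔ x0 < α j) (h : α i < α j) :
    keyOf x0 α i < keyOf x0 α j := by
  unfold keyOf
  rw [Prod.Lex.toLex_lt_toLex, Prod.Lex.toLex_lt_toLex]
  right
  simp [hs, h]

lemma key_lt {x0 : ℝ} {α : ℕ → ℝ} {i s : ℕ} (hi : α i ≠ x0) (hs : α s ≠ x0) (hne : α i ≠ α s) :
    keyOf x0 α i < keyOf x0 α s ↔ ((α i < x0 ↔ α i < α s) ↔ ¬ x0 < α s) := by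
  have asym : ∀ a b : ℕ, keyOf x0 α a < keyOf x0 α b → ¬ keyOf x0 α b < keyOf x0 α a :=
    fun a b h => lt_asymm h
  rcases hi.lt_or_gt with h1 | h1 <;> rcases hs.lt_or_gt with h2 | h2 <;>
    rcases hne.lt_or_gt with h3 | h3
  · exact iff_of_true (key_same (iff_of_false h1.not_gt h2.not_gt) h3) (by simp [h1, h3, h2.le])
  · exact iff_of_false (asym _ _ (key_same (iff_of_false h2.not_gt h1.not_gt) h3))
      (by simp [h1, h3.le, h2.le])
  · exact iff_of_false (asym _ _ (key_side h2 h1.not_gt)) (by simp [h1, h3, h2])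
  · linarith
  · linarith
  · exact iff_of_true (key_side h1 h2.not_gt) (by simp [h1.not_gt, h3.not_gt, h2.le])
  · exact iff_of_true (key_same (iff_of_true h1 h2) h3) (by simp [h1.not_gt, h3, h2])
  · exact iff_of_false (asym _ _ (key_same (iff_of_true h2 h1) h3))
      (by simp [h1.not_gt, h3.not_gt, h2])

/-- data of the transition edges around the apex `c` -/
structure Trans {V : Type} {E : V → V → Prop} (M : FModel E) (c : V) (N : ℕ) (bot top : ℕ → V)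
    (x0 : ℝ) (α : ℕ → ℝ) : Prop where
  hx : x0 = M.x c
  hα : ∀ s ≤ N, α s = M.X (bot s) (top s) (M.y c)
  eT : ∀ s ≤ N, E (bot s) (top s)
  eB : ∀ s ≤ N, E (bot s) c
  eC : ∀ s ≤ N, E c (top s)
  ib : ∀ s ≤ N, ∀ s' ≤ N, bot s = bot s' → s = s'
  it : ∀ s ≤ N, ∀ s' ≤ N, top s = top s' → s = s'

namespace Trans

variable {V : Type} {E : V → V → Prop} {M : FModel E} {c : V} {N : ℕ} {bot top : ℕ → V}
  {x0 : ℝ} {α : ℕ → ℝ}

lemma rev (T : Trans M c N bot top x0 α) : Trans M.rev c N top bot x0 α where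
  hx := T.hx
  hα := fun s hs => by
    rw [T.hα s hs]
    show _ = M.X (bot s) (top s) (- - M.y c)
    rw [neg_neg]
  eT := T.eT
  eB := T.eC
  eC := T.eB
  ib := T.it
  it := T.ib

lemma ne_x0 (T : Trans M c N bot top x0 α) {s : ℕ} (hs : s ≤ N) : α s ≠ x0 := by
  rw [T.hα s hs, T.hx]
  exact M.avoid _ _ c (T.eT s hs) (M.lt _ _ (T.eB s hs)) (M.lt _ _ (T.eC s hs))

lemma meet_of_eq (T : Trans M c N bot top x0 α) {i s : ℕ} (hi : i ≤ N) (hs : s ≤ N)
    (h : α i = α s) : M.Meet s(bot i, top i) s(bot s, top s) :=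
  ⟨_, _, _, _, M.y c, rfl, rfl, T.eT i hi, T.eT s hs, M.lt _ _ (T.eB i hi), M.lt _ _ (T.eC i hi),
    M.lt _ _ (T.eB s hs), M.lt _ _ (T.eC s hs), by rw [← T.hα i hi, ← T.hα s hs, h]⟩

lemma edge_inj (T : Trans M c N bot top x0 α) {i s : ℕ} (hi : i ≤ N) (hs : s ≤ N)
    (h : s(bot i, top i) = s(bot s, top s)) : i = s := by
  rcases Sym2.eq_iff.1 h with k | k
  · exact T.ib i hi s hs k.1
  · have h1 := M.lt _ _ (T.eB i hi)
    have h2 := M.lt _ _ (T.eC s hs)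
    rw [k.1] at h1
    linarith

lemma spoke_ne (T : Trans M c N bot top x0 α) {i : ℕ} (hi : i ≤ N) (w : V) :
    s(c, w) ≠ s(bot i, top i) := by
  intro h
  have h1 := M.lt _ _ (T.eB i hi)
  have h2 := M.lt _ _ (T.eC i hi)
  rcases Sym2.eq_iff.1 h with k | k
  · rw [← k.1] at h1; linarith
  · rw [← k.1] at h2; linarith

/-- if the two inside-statuses at the apex height agree then `s` is not between -/
lemma not_btw (T : Trans M c N bot top x0 α) {i i' s : ℕ} (hi : i ≤ N) (hi' : i' ≤ N) (hs : s ≤ N)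
    (n1 : α i ≠ α s) (n2 : α i' ≠ α s)
    (h : M.Ins c (bot s) (top s) (M.X (bot i) (top i) (M.y c)) (M.y c) ↔
      M.Ins c (bot s) (top s) (M.X (bot i') (top i') (M.y c)) (M.y c)) :
    ¬ ((keyOf x0 α i < keyOf x0 α s ∧ keyOf x0 α s < keyOf x0 α i') ∨
      (keyOf x0 α i' < keyOf x0 α s ∧ keyOf x0 α s < keyOf x0 α i)) := by
  rw [M.ins_low (T.eC s hs), M.ins_low (T.eC s hs), ← T.hα i hi, ← T.hα i' hi', ← T.hα s hs,
    ← T.hx] at h
  have k1 := key_lt (T.ne_x0 hi) (T.ne_x0 hs) n1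
  have k2 := key_lt (T.ne_x0 hi') (T.ne_x0 hs) n2
  rintro (⟨a, b⟩ | ⟨a, b⟩)
  · have := k1.1 a
    have hb : ¬ keyOf x0 α i' < keyOf x0 α s := lt_asymm b
    rw [k2] at hb
    tauto
  · have := k2.1 a
    have hb : ¬ keyOf x0 α i < keyOf x0 α s := lt_asymm b
    rw [k1] at hb
    tauto

lemma pass (T : Trans M c N bot top x0 α) {i i' s : ℕ} {m : V} (hi : i ≤ N) (hi' : i' ≤ N)
    (hs : s ≤ N) (e1 : E (top i) m) (e2 : E m (top i')) (hm : m ≠ top s)
    (hb : (keyOf x0 α i < keyOf x0 α s ∧ keyOf x0 α s < keyOf x0 α i') ∨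
      (keyOf x0 α i' < keyOf x0 α s ∧ keyOf x0 α s < keyOf x0 α i)) :
    ∃ g, (g = s(bot i, top i) ∨ g = s(top i, m) ∨ g = s(m, top i') ∨ g = s(bot i', top i')) ∧
      (M.Meet g s(c, top s) ∨ M.Meet g s(bot s, top s)) := by
  by_contra hno
  push Not at hno
  have hsi : i ≠ s := by
    rintro rfl
    rcases hb with hb | hb
    · exact lt_irrefl _ hb.1
    · exact lt_irrefl _ hb.2
  have hsi' : i' ≠ s := by
    rintro rfl
    rcases hb with hb | hb
    · exact lt_irrefl _ hb.2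
    · exact lt_irrefl _ hb.1
  obtain ⟨a1, a2⟩ := hno _ (Or.inl rfl)
  obtain ⟨b1, b2⟩ := hno _ (Or.inr (Or.inl rfl))
  obtain ⟨c1, c2⟩ := hno _ (Or.inr (Or.inr (Or.inl rfl)))
  obtain ⟨d1, d2⟩ := hno _ (Or.inr (Or.inr (Or.inr rfl)))
  have ls := M.lt _ _ (T.eB s hs)
  have li := M.lt _ _ (T.eC i hi)
  have lm := M.lt _ _ e1
  have p1 := M.ins_trans (T.eC s hs) (T.eT s hs) ls (T.eT i hi) (M.lt _ _ (T.eB i hi)) li
    (fun h => hsi (T.ib _ hi _ hs h)) (fun h => hsi (T.it _ hi _ hs h)) a1 a2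
  have p2 := M.ins_run (T.eC s hs) (T.eT s hs) ls e1 li (fun h => hsi (T.it _ hi _ hs h)) hm b1 b2
  have p3 := M.ins_run (T.eC s hs) (T.eT s hs) ls e2 (by linarith) hm
    (fun h => hsi' (T.it _ hi' _ hs h)) c1 c2
  have p4 := M.ins_trans (T.eC s hs) (T.eT s hs) ls (T.eT i' hi') (M.lt _ _ (T.eB i' hi'))
    (M.lt _ _ (T.eC i' hi')) (fun h => hsi' (T.ib _ hi' _ hs h))
    (fun h => hsi' (T.it _ hi' _ hs h)) d1 d2
  exact T.not_btw hi hi' hs (fun h => a2 (T.meet_of_eq hi hs h))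
    (fun h => d2 (T.meet_of_eq hi' hs h)) (p1.trans (p2.trans (p3.trans p4.symm))) hb

lemma step (T : Trans M c N bot top x0 α) {i i' : ℕ} {m : V} (hi : i ≤ N) (hi' : i' ≤ N)
    (hne : i' ≠ i) (e0 : E c m) (e1 : E (top i) m) (e2 : E m (top i'))
    (hsd : x0 < α i ↔ x0 < α i') :
    ((x0 < α i → keyOf x0 α i < keyOf x0 α i') ∧ (¬ x0 < α i → keyOf x0 α i' < keyOf x0 α i)) ∨
    (M.Meet s(bot i, top i) s(bot i', top i') ∧ ∀ s ≤ N,
      ¬ ((keyOf x0 α i < keyOf x0 α s ∧ keyOf x0 α s < keyOf x0 α i') ∨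
        (keyOf x0 α i' < keyOf x0 α s ∧ keyOf x0 α s < keyOf x0 α i))) := by
  by_cases H : α i' = α i ∨ ¬ (α i' < x0 ↔ α i' < α i)
  · right
    have H' := H
    rw [T.hα i hi, T.hα i' hi', T.hx] at H'
    obtain ⟨h0, k0, k⟩ := M.dir_up (T.eC i hi) e0 e1 e2 (T.eT i hi) (T.eT i' hi')
      (M.lt _ _ (T.eB i hi)) (M.lt _ _ (T.eB i' hi')) (fun h => hne (T.ib _ hi' _ hi h)) H'
    have mm : M.Meet s(bot i', top i') s(bot i, top i) :=
      ⟨_, _, _, _, h0, rfl, rfl, T.eT i' hi', T.eT i hi, k⟩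
    refine ⟨mm.symm, fun s hs hb => ?_⟩
    have hsi : i ≠ s := by
      rintro rfl
      rcases hb with hb | hb
      · exact lt_irrefl _ hb.1
      · exact lt_irrefl _ hb.2
    have hsi' : i' ≠ s := by
      rintro rfl
      rcases hb with hb | hb
      · exact lt_irrefl _ hb.2
      · exact lt_irrefl _ hb.1
    have q1 : s(bot i, top i) ≠ s(bot i', top i') := fun h => hne (T.edge_inj hi hi' h).symm
    have a1 : ¬ M.Meet s(bot i, top i) s(c, top s) := fun h =>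
      T.spoke_ne hi' _ (h.unique mm.symm (T.spoke_ne hi _) q1.symm)
    have a2 : ¬ M.Meet s(bot i, top i) s(bot s, top s) := fun h =>
      hsi' (T.edge_inj hs hi' (h.unique mm.symm (fun h => hsi (T.edge_inj hs hi h).symm)
        q1.symm)).symm
    have d1 : ¬ M.Meet s(bot i', top i') s(c, top s) := fun h =>
      T.spoke_ne hi _ (h.unique mm (T.spoke_ne hi' _) q1)
    have d2 : ¬ M.Meet s(bot i', top i') s(bot s, top s) := fun h =>
      hsi (T.edge_inj hs hi (h.unique mm (fun h => hsi' (T.edge_inj hs hi' h).symm) q1)).symm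
    have ls := M.lt _ _ (T.eB s hs)
    have lw := M.lt _ _ (T.eC s hs)
    have lb := M.lt _ _ (T.eB i hi)
    have lb' := M.lt _ _ (T.eB i' hi')
    have lt1 := M.lt _ _ (T.eC i hi)
    have lt2 := M.lt _ _ (T.eC i' hi')
    have p1 := M.ins_edge (h1 := M.y c) (h2 := h0) (T.eC s hs) (T.eT s hs) ls (T.eT i hi)
      (fun h => by rw [h] at lb; linarith) (fun h => by rw [h] at lb; linarith)
      (fun h => hsi (T.ib _ hi _ hs h)) (fun h => by rw [h] at lt1; linarith)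
      (fun h => hsi (T.it _ hi _ hs h)) (fun h => by rw [h] at lt1; linarith)
      le_rfl lb.le k0 k.2.2.2.1.le
      (M.not_cr_of_not_meet (T.eT i hi) (T.eC s hs) a1 _)
      (M.not_cr_of_not_meet (T.eT i hi) (T.eT s hs) a2 _)
    have p2 := M.ins_edge (h1 := M.y c) (h2 := h0) (T.eC s hs) (T.eT s hs) ls (T.eT i' hi')
      (fun h => by rw [h] at lb'; linarith) (fun h => by rw [h] at lb'; linarith)
      (fun h => hsi' (T.ib _ hi' _ hs h)) (fun h => by rw [h] at lt2; linarith)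
      (fun h => hsi' (T.it _ hi' _ hs h)) (fun h => by rw [h] at lt2; linarith)
      le_rfl lb'.le k0 k.2.1.le
      (M.not_cr_of_not_meet (T.eT i' hi') (T.eC s hs) d1 _)
      (M.not_cr_of_not_meet (T.eT i' hi') (T.eT s hs) d2 _)
    rw [k.2.2.2.2] at p2
    exact T.not_btw hi hi' hs (fun h => a2 (T.meet_of_eq hi hs h))
      (fun h => d2 (T.meet_of_eq hi' hs h)) (p1.trans p2.symm) hb
  · left
    rw [not_or, not_not] at H
    obtain ⟨H1, H2⟩ := H
    constructor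
    · intro h
      refine key_same hsd ?_
      have h' := hsd.1 h
      have : ¬ α i' < α i := fun hh => (H2.2 hh).not_gt h'
      exact lt_of_le_of_ne (not_lt.1 this) (Ne.symm H1)
    · intro h
      refine key_same hsd.symm (H2.1 ?_)
      have h' : ¬ x0 < α i' := fun hh => h (hsd.2 hh)
      exact lt_of_le_of_ne (not_lt.1 h') (T.ne_x0 hi')

end Trans

end Pool.Agent.P.MP_c2502c_co
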