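import Mathlib
import Pool.Agent.P.MP_c2502c_co.Half

namespace Pool.Agent.P.MP_c2502c_co

open Set

/-- direction of the path edge between `p k` and `p (k+1)` -/
def fwd (k : ℕ) : Prop :=
  (k % 3 = 2 ∧ (k / 3) % 2 = 1) ∨ (k % 3 ≠ 2 ∧ (strandUp (k / 3 - 1) ↔ (k / 3) % 2 = 0))

structure FanData {V : Type} (E : V → V → Prop) (c : V) (p : ℕ → V) (N : ℕ) : Prop where
  hp : ∀ i < 3 * N + 6, ∀ j < 3 * N + 6, p i = p j → i = j
  hc : ∀ i < 3 * N + 6, p i ≠ c
  hU : ∀ k < 3 * N + 6, (k / 3) % 2 = 0 → E c (p k)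
  hD : ∀ k < 3 * N + 6, (k / 3) % 2 = 1 → E (p k) c
  hF : ∀ k, k + 1 < 3 * N + 6 → fwd k → E (p k) (p (k + 1))
  hB : ∀ k, k + 1 < 3 * N + 6 → ¬ fwd k → E (p (k + 1)) (p k)

def botI (s : ℕ) : ℕ := if s % 2 = 0 then 3 * s + 3 else 3 * s + 2
def topI (s : ℕ) : ℕ := if s % 2 = 0 then 3 * s + 2 else 3 * s + 3

lemma botI_even {s : ℕ} (h : s % 2 = 0) : botI s = 3 * s + 3 := by simp [botI, h]
lemma botI_odd {s : ℕ} (h : s % 2 = 1) : botI s = 3 * s + 2 := by simp [botI, h]
lemma topI_even {s : ℕ} (h : s % 2 = 0) : topI s = 3 * s + 2 := by simp [topI, h]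
lemma topI_odd {s : ℕ} (h : s % 2 = 1) : topI s = 3 * s + 3 := by simp [topI, h]

namespace FanData

variable {V : Type} {E : V → V → Prop} {c : V} {p : ℕ → V} {N : ℕ}

lemma trans (F : FanData E c p N) (M : FModel E) :
    Trans M c N (fun s => p (botI s)) (fun s => p (topI s)) (M.x c)
      (fun s => M.X (p (botI s)) (p (topI s)) (M.y c)) where
  hx := rfl
  hα := fun _ _ => rfl
  eT := fun s hs => by
    rcases Nat.mod_two_eq_zero_or_one s with h | h
    · rw [botI_even h, topI_even h]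
      exact F.hB (3 * s + 2) (by omega) (by unfold fwd; omega)
    · rw [botI_odd h, topI_odd h]
      exact F.hF (3 * s + 2) (by omega) (Or.inl (by omega))
  eB := fun s hs => by
    rcases Nat.mod_two_eq_zero_or_one s with h | h
    · rw [botI_even h]; exact F.hD _ (by omega) (by omega)
    · rw [botI_odd h]; exact F.hD _ (by omega) (by omega)
  eC := fun s hs => by
    rcases Nat.mod_two_eq_zero_or_one s with h | h
    · rw [topI_even h]; exact F.hU _ (by omega) (by omega)
    · rw [topI_odd h]; exact F.hU _ (by omega) (by omega)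
  ib := fun s hs s' hs' h => by
    have := F.hp _ (by unfold botI; split_ifs <;> omega) _ (by unfold botI; split_ifs <;> omega) h
    unfold botI at this
    split_ifs at this <;> omega
  it := fun s hs s' hs' h => by
    have := F.hp _ (by unfold topI; split_ifs <;> omega) _ (by unfold topI; split_ifs <;> omega) h
    unfold topI at this
    split_ifs at this <;> omega

lemma tE (p : ℕ → V) (s : ℕ) :
    s(p (botI s), p (topI s)) = s(p (3 * s + 2), p (3 * s + 2 + 1)) := by
  rcases Nat.mod_two_eq_zero_or_one s with h | h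
  · rw [botI_even h, topI_even h, Sym2.eq_swap]
  · rw [botI_odd h, topI_odd h]

lemma tE' (p : ℕ → V) (s : ℕ) :
    s(p (topI s), p (botI s)) = s(p (3 * s + 2), p (3 * s + 2 + 1)) := by
  rw [Sym2.eq_swap, tE]

lemma fwd_run {i : ℕ} : (fwd (3 * i + 3) ↔ (strandUp i ↔ i % 2 = 1)) ∧
    (fwd (3 * i + 4) ↔ (strandUp i ↔ i % 2 = 1)) := by
  unfold fwd
  have h1 : (3 * i + 3) / 3 - 1 = i := by omega
  have h2 : (3 * i + 4) / 3 - 1 = i := by omega
  have h3 : (3 * i + 3) / 3 % 2 = 0 ↔ i % 2 = 1 := by omega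
  have h4 : (3 * i + 4) / 3 % 2 = 0 ↔ i % 2 = 1 := by omega
  have h5 : (3 * i + 3) % 3 ≠ 2 := by omega
  have h6 : (3 * i + 4) % 3 ≠ 2 := by omega
  rw [h1, h2, h3, h4]
  exact ⟨⟨fun h => h.elim (fun k => absurd k.1 h5) (fun k => k.2), fun h => Or.inr ⟨h5, h⟩⟩,
    ⟨fun h => h.elim (fun k => absurd k.1 h6) (fun k => k.2), fun h => Or.inr ⟨h6, h⟩⟩⟩

/-- the edges of the run between the transitions `i` and `i+1` -/
lemma run (F : FanData E c p N) {i : ℕ} (hi : i < N) :
    ((strandUp i ↔ i % 2 = 1) →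
      E (p (3 * i + 3)) (p (3 * i + 4)) ∧ E (p (3 * i + 4)) (p (3 * i + 5))) ∧
    (¬ (strandUp i ↔ i % 2 = 1) →
      E (p (3 * i + 5)) (p (3 * i + 4)) ∧ E (p (3 * i + 4)) (p (3 * i + 3))) :=
  ⟨fun h => ⟨F.hF _ (by omega) (fwd_run.1.2 h), F.hF _ (by omega) (fwd_run.2.2 h)⟩,
   fun h => ⟨F.hB (3 * i + 4) (by omega) (fun k => h (fwd_run.2.1 k)),
     F.hB (3 * i + 3) (by omega) (fun k => h (fwd_run.1.1 k))⟩⟩

lemma pass (F : FanData E c p N) (M : FModel E) {i s : ℕ} (hi : i < N) (hs : s ≤ N)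
    (hb : Btw (keyOf (M.x c) (fun s => M.X (p (botI s)) (p (topI s)) (M.y c))) i s) :
    ∃ k, 3 * i + 2 ≤ k ∧ k ≤ 3 * i + 5 ∧ ∃ e,
      (e = s(p (3 * s + 2), p (3 * s + 2 + 1)) ∨ e = s(c, p (3 * s + 2)) ∨
        e = s(c, p (3 * s + 3))) ∧ M.Meet s(p k, p (k + 1)) e := by
  have T := F.trans M
  have fin : ∀ g : Sym2 V, (∃ k, 3 * i + 2 ≤ k ∧ k ≤ 3 * i + 5 ∧ g = s(p k, p (k + 1))) →
      ∀ w, (w = p (topI s) ∨ w = p (botI s)) →
      (M.Meet g s(c, w) ∨ M.Meet g s(p (3 * s + 2), p (3 * s + 2 + 1))) →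
      ∃ k, 3 * i + 2 ≤ k ∧ k ≤ 3 * i + 5 ∧ ∃ e,
      (e = s(p (3 * s + 2), p (3 * s + 2 + 1)) ∨ e = s(c, p (3 * s + 2)) ∨
        e = s(c, p (3 * s + 3))) ∧ M.Meet s(p k, p (k + 1)) e := by
    rintro g ⟨k, k1, k2, rfl⟩ w hw hm
    refine ⟨k, k1, k2, ?_⟩
    rcases hm with hm | hm
    · refine ⟨_, Or.inr ?_, hm⟩
      rcases Nat.mod_two_eq_zero_or_one s with h | h
      · rw [botI_even h, topI_even h] at hw
        rcases hw with rfl | rfl <;> simp
      · rw [botI_odd h, topI_odd h] at hw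
        rcases hw with rfl | rfl <;> simp
    · exact ⟨_, Or.inl rfl, hm⟩
  have g0 : ∃ k, 3 * i + 2 ≤ k ∧ k ≤ 3 * i + 5 ∧
      s(p (3 * i + 2), p (3 * i + 2 + 1)) = s(p k, p (k + 1)) := ⟨_, le_rfl, by omega, rfl⟩
  have g1 : ∃ k, 3 * i + 2 ≤ k ∧ k ≤ 3 * i + 5 ∧
      s(p (3 * i + 3), p (3 * i + 4)) = s(p k, p (k + 1)) := ⟨3 * i + 3, by omega, by omega, rfl⟩
  have g2 : ∃ k, 3 * i + 2 ≤ k ∧ k ≤ 3 * i + 5 ∧
      s(p (3 * i + 4), p (3 * i + 5)) = s(p k, p (k + 1)) := ⟨3 * i + 4, by omega, by omega, rfl⟩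
  have g3 : ∃ k, 3 * i + 2 ≤ k ∧ k ≤ 3 * i + 5 ∧
      s(p (3 * (i + 1) + 2), p (3 * (i + 1) + 2 + 1)) = s(p k, p (k + 1)) :=
    ⟨3 * (i + 1) + 2, by omega, by omega, rfl⟩
  have g1' := g1
  have g2' := g2
  rw [Sym2.eq_swap] at g1' g2'
  have r := F.run hi
  have hb' : (keyOf (M.x c) (fun s => M.X (p (botI s)) (p (topI s)) (M.y c)) (i + 1) <
      keyOf (M.x c) (fun s => M.X (p (botI s)) (p (topI s)) (M.y c)) s ∧
      keyOf (M.x c) (fun s => M.X (p (botI s)) (p (topI s)) (M.y c)) s <
      keyOf (M.x c) (fun s => M.X (p (botI s)) (p (topI s)) (M.y c)) i) ∨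
      (keyOf (M.x c) (fun s => M.X (p (botI s)) (p (topI s)) (M.y c)) i <
      keyOf (M.x c) (fun s => M.X (p (botI s)) (p (topI s)) (M.y c)) s ∧
      keyOf (M.x c) (fun s => M.X (p (botI s)) (p (topI s)) (M.y c)) s <
      keyOf (M.x c) (fun s => M.X (p (botI s)) (p (topI s)) (M.y c)) (i + 1)) := Or.symm hb
  have mt : p (3 * i + 4) ≠ p (topI s) := fun h => by
    have := F.hp _ (by omega) _ (by unfold topI; split_ifs <;> omega) h
    unfold topI at this
    split_ifs at this <;> omega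
  have mb : p (3 * i + 4) ≠ p (botI s) := fun h => by
    have := F.hp _ (by omega) _ (by unfold botI; split_ifs <;> omega) h
    unfold botI at this
    split_ifs at this <;> omega
  rcases Nat.mod_two_eq_zero_or_one i with h | h
  · have b1 : botI i = 3 * i + 3 := botI_even h
    have b2 : botI (i + 1) = 3 * i + 5 := by rw [botI_odd (by omega)]; omega
    by_cases u : (strandUp i ↔ i % 2 = 1)
    · obtain ⟨r1, r2⟩ := r.1 u
      obtain ⟨g, hg, hm⟩ := T.rev.pass (i := i + 1) (i' := i) (m := p (3 * i + 4)) (by omega)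
        hi.le hs (by simp only [b2]; exact r2) (by simp only [b1]; exact r1) mb hb'
      simp only [tE'] at hg hm
      simp only [b1, b2] at hg
      refine fin g ?_ _ (Or.inr rfl) (hm.imp (FModel.Meet.of_rev M) (FModel.Meet.of_rev M))
      rcases hg with rfl | rfl | rfl | rfl <;> assumption
    · obtain ⟨r1, r2⟩ := r.2 u
      obtain ⟨g, hg, hm⟩ := T.rev.pass (i := i) (i' := i + 1) (m := p (3 * i + 4)) hi.le
        (by omega) hs (by simp only [b1]; exact r2) (by simp only [b2]; exact r1) mb hb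
      simp only [tE'] at hg hm
      simp only [b1, b2] at hg
      refine fin g ?_ _ (Or.inr rfl) (hm.imp (FModel.Meet.of_rev M) (FModel.Meet.of_rev M))
      rcases hg with rfl | rfl | rfl | rfl <;> assumption
  · have b1 : topI i = 3 * i + 3 := topI_odd h
    have b2 : topI (i + 1) = 3 * i + 5 := by rw [topI_even (by omega)]; omega
    by_cases u : (strandUp i ↔ i % 2 = 1)
    · obtain ⟨r1, r2⟩ := r.1 u
      obtain ⟨g, hg, hm⟩ := T.pass (i := i) (i' := i + 1) (m := p (3 * i + 4)) hi.le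
        (by omega) hs (by simp only [b1]; exact r1) (by simp only [b2]; exact r2) mt hb
      simp only [tE] at hg hm
      simp only [b1, b2] at hg
      refine fin g ?_ _ (Or.inl rfl) hm
      rcases hg with rfl | rfl | rfl | rfl <;> assumption
    · obtain ⟨r1, r2⟩ := r.2 u
      obtain ⟨g, hg, hm⟩ := T.pass (i := i + 1) (i' := i) (m := p (3 * i + 4)) (by omega)
        hi.le hs (by simp only [b2]; exact r1) (by simp only [b1]; exact r2) mt hb'
      simp only [tE] at hg hm
      simp only [b1, b2] at hg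
      refine fin g ?_ _ (Or.inl rfl) hm
      rcases hg with rfl | rfl | rfl | rfl <;> assumption

lemma step (F : FanData E c p N) (M : FModel E) {i : ℕ} (hi : i < N) (α : ℕ → ℝ)
    (hα : α = fun s => M.X (p (botI s)) (p (topI s)) (M.y c))
    (hsd : M.x c < α i ↔ M.x c < α (i + 1)) :
    (((strandUp i ↔ M.x c < α i) → keyOf (M.x c) α i < keyOf (M.x c) α (i + 1)) ∧
      (¬ (strandUp i ↔ M.x c < α i) → keyOf (M.x c) α (i + 1) < keyOf (M.x c) α i)) ∨
    (M.Meet s(p (3 * i + 2), p (3 * i + 2 + 1)) s(p (3 * (i + 1) + 2), p (3 * (i + 1) + 2 + 1)) ∧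
      ∀ s ≤ N, ¬ Btw (keyOf (M.x c) α) i s) := by
  have T := F.trans M
  rw [← hα] at T
  have r := F.run hi
  rcases Nat.mod_two_eq_zero_or_one i with h | h
  · have b1 : botI i = 3 * i + 3 := botI_even h
    have b2 : botI (i + 1) = 3 * i + 5 := by rw [botI_odd (by omega)]; omega
    have e0 : E (p (3 * i + 4)) c := F.hD _ (by omega) (by omega)
    by_cases u : (strandUp i ↔ i % 2 = 1)
    · obtain ⟨r1, r2⟩ := r.1 u
      have u' : ¬ strandUp i := fun k => by have := u.1 k; omega
      rcases T.rev.step (i := i + 1) (i' := i) (m := p (3 * i + 4)) (by omega)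
        hi.le (by omega) e0 (by simp only [b2]; exact r2) (by simp only [b1]; exact r1) hsd.symm
        with k | k
      · left; tauto
      · right
        simp only [tE'] at k
        exact ⟨(FModel.Meet.of_rev M k.1).symm, fun s hs hb => k.2 s hs (Or.symm hb)⟩
    · obtain ⟨r1, r2⟩ := r.2 u
      have u' : strandUp i := by
        by_contra k
        exact u (iff_of_false k (by omega))
      rcases T.rev.step (i := i) (i' := i + 1) (m := p (3 * i + 4)) hi.le (by omega)
        (by omega) e0 (by simp only [b1]; exact r2) (by simp only [b2]; exact r1) hsd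
        with k | k
      · left; tauto
      · right
        simp only [tE'] at k
        exact ⟨FModel.Meet.of_rev M k.1, fun s hs hb => k.2 s hs hb⟩
  · have b1 : topI i = 3 * i + 3 := topI_odd h
    have b2 : topI (i + 1) = 3 * i + 5 := by rw [topI_even (by omega)]; omega
    have e0 : E c (p (3 * i + 4)) := F.hU _ (by omega) (by omega)
    by_cases u : (strandUp i ↔ i % 2 = 1)
    · obtain ⟨r1, r2⟩ := r.1 u
      have u' : strandUp i := u.2 h
      rcases T.step (i := i) (i' := i + 1) (m := p (3 * i + 4)) hi.le (by omega)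
        (by omega) e0 (by simp only [b1]; exact r1) (by simp only [b2]; exact r2) hsd
        with k | k
      · left; tauto
      · right
        simp only [tE] at k
        exact ⟨k.1, fun s hs hb => k.2 s hs hb⟩
    · obtain ⟨r1, r2⟩ := r.2 u
      have u' : ¬ strandUp i := fun k => u (iff_of_true k h)
      rcases T.step (i := i + 1) (i' := i) (m := p (3 * i + 4)) (by omega)
        hi.le (by omega) e0 (by simp only [b2]; exact r1) (by simp only [b1]; exact r2) hsd.symm
        with k | k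
      · left; tauto
      · right
        simp only [tE] at k
        exact ⟨k.1.symm, fun s hs hb => k.2 s hs (Or.symm hb)⟩

lemma pe_inj (F : FanData E c p N) {k k' : ℕ} (hk : k + 1 < 3 * N + 6) (hk' : k' + 1 < 3 * N + 6)
    (h : s(p k, p (k + 1)) = s(p k', p (k' + 1))) : k = k' := by
  rcases Sym2.eq_iff.1 h with q | q
  · exact F.hp _ (by omega) _ (by omega) q.1
  · have h1 := F.hp _ (by omega) _ (by omega) q.1
    have h2 := F.hp _ (by omega) _ (by omega) q.2
    omega

lemma spoke_ne_pe (F : FanData E c p N) {k : ℕ} (hk : k + 1 < 3 * N + 6) (w : V) :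
    s(c, w) ≠ s(p k, p (k + 1)) := by
  intro h
  rcases Sym2.eq_iff.1 h with q | q
  · exact F.hc _ (by omega) q.1.symm
  · exact F.hc _ (by omega) q.1.symm

lemma spoke_inj (F : FanData E c p N) {k k' : ℕ} (hk : k < 3 * N + 6) (hk' : k' < 3 * N + 6)
    (h : s(c, p k) = s(c, p k')) : k = k' := by
  rcases Sym2.eq_iff.1 h with q | q
  · exact F.hp _ hk _ hk' q.2
  · exact absurd q.2 (F.hc _ hk)

theorem no_model (F : FanData E c p N) (hN : N = 1999999998) (M : FModel E) : False := by
  classical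
  obtain ⟨α, hα⟩ : ∃ α : ℕ → ℝ, α = fun s => M.X (p (botI s)) (p (topI s)) (M.y c) := ⟨_, rfl⟩
  have P : ∀ i s, ∃ k : ℕ, ∃ e : Sym2 V, i < N → s ≤ N → Btw (keyOf (M.x c) α) i s →
      3 * i + 2 ≤ k ∧ k ≤ 3 * i + 5 ∧
      (e = s(p (3 * s + 2), p (3 * s + 2 + 1)) ∨ e = s(c, p (3 * s + 2)) ∨
        e = s(c, p (3 * s + 3))) ∧ M.Meet s(p k, p (k + 1)) e ∧ e ≠ s(p k, p (k + 1)) := by
    intro i s
    by_cases hh : i < N ∧ s ≤ N ∧ Btw (keyOf (M.x c) α) i s
    · obtain ⟨hi, hs, hb⟩ := hh
      obtain ⟨k, k1, k2, e, he, hm⟩ := F.pass M hi hs (hα ▸ hb)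
      refine ⟨k, e, fun _ _ _ => ⟨k1, k2, he, hm, ?_⟩⟩
      rcases he with rfl | rfl | rfl
      · intro h
        have := F.pe_inj (by omega) (by omega) h
        have : s = i ∨ s = i + 1 := by omega
        rcases this with rfl | rfl
        · rcases hb with hb | hb
          · exact lt_irrefl _ hb.1
          · exact lt_irrefl _ hb.2
        · rcases hb with hb | hb
          · exact lt_irrefl _ hb.2
          · exact lt_irrefl _ hb.1
      · exact F.spoke_ne_pe (by omega) _
      · exact F.spoke_ne_pe (by omega) _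
    · exact ⟨0, s(c, c), fun a b d => absurd ⟨a, b, d⟩ hh⟩
  choose kk ee hP using P
  refine comb N hN (keyOf (M.x c) α) (fun i _ j _ h => key_inj h) (fun i => M.x c < α i)
    (fun i _ j _ a b => key_side a b) ?_ ?_ ?_
  · intro i hi
    have : (Finset.Icc (3 * i + 2) (3 * i + 5)).card = 4 := by simp
    rw [← this]
    refine Finset.card_le_card_of_injOn (fun s => kk i s) ?_ ?_
    · intro s hs
      simp only [Finset.coe_filter, Finset.mem_range, mem_ofPred_eq] at hs
      obtain ⟨k1, k2, -⟩ := hP i s hi (by omega) hs.2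
      simp only [Finset.coe_Icc, mem_Icc]
      exact ⟨k1, k2⟩
    · intro s hs s' hs' hss
      simp only [Finset.coe_filter, Finset.mem_range, mem_ofPred_eq] at hs hs'
      obtain ⟨k1, k2, he, hm, hn⟩ := hP i s hi (by omega) hs.2
      obtain ⟨k1', k2', he', hm', hn'⟩ := hP i s' hi (by omega) hs'.2
      simp only at hss
      rw [← hss] at hm' hn'
      have e := hm.unique hm' hn hn'
      rw [e] at he
      have hs1 := hs.1
      have hs2 := hs'.1
      rcases he with he | he | he <;> rcases he' with he' | he' | he' <;> rw [he'] at he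
      · have := F.pe_inj (by omega) (by omega) he; omega
      · exact absurd he (F.spoke_ne_pe (by omega) _)
      · exact absurd he (F.spoke_ne_pe (by omega) _)
      · exact absurd he.symm (F.spoke_ne_pe (by omega) _)
      · have := F.spoke_inj (by omega) (by omega) he; omega
      · have := F.spoke_inj (by omega) (by omega) he; omega
      · exact absurd he.symm (F.spoke_ne_pe (by omega) _)
      · have := F.spoke_inj (by omega) (by omega) he; omega
      · have := F.spoke_inj (by omega) (by omega) he; omega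
  · intro s hs
    have : (({s(p (3 * s + 2), p (3 * s + 2 + 1)), s(c, p (3 * s + 2)), s(c, p (3 * s + 3))} :
        Finset (Sym2 V)) ×ˢ Finset.range 2).card ≤ 6 := by
      rw [Finset.card_product, Finset.card_range]
      have : ({s(p (3 * s + 2), p (3 * s + 2 + 1)), s(c, p (3 * s + 2)), s(c, p (3 * s + 3))} :
        Finset (Sym2 V)).card ≤ 3 := Finset.card_le_three
      omega
    refine le_trans (Finset.card_le_card_of_injOn (fun i => (ee i s, i % 2)) ?_ ?_) this
    · intro i hi
      simp only [Finset.coe_filter, Finset.mem_range, mem_ofPred_eq] at hi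
      obtain ⟨-, -, he, -⟩ := hP i s hi.1 hs hi.2
      simp only [Finset.coe_product, Finset.coe_insert, Finset.coe_singleton, Finset.coe_range,
        mem_prod, mem_insert_iff, mem_singleton_iff, mem_Iio]
      exact ⟨he, by omega⟩
    · intro i hi i' hi' hii
      simp only [Finset.coe_filter, Finset.mem_range, mem_ofPred_eq] at hi hi'
      obtain ⟨k1, k2, he, hm, hn⟩ := hP i s hi.1 hs hi.2
      obtain ⟨k1', k2', he', hm', hn'⟩ := hP i' s hi'.1 hs hi'.2
      simp only [Prod.mk.injEq] at hii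
      rw [← hii.1] at hm' hn'
      have e := hm.symm.unique hm'.symm hn.symm hn'.symm
      have hi1 := hi.1
      have hi2 := hi'.1
      have := F.pe_inj (by omega) (by omega) e
      omega
  · intro i hi u s1 s2
    have ne1 : ∀ a b : ℕ, a ≠ b → keyOf (M.x c) α a ≠ keyOf (M.x c) α b :=
      fun a b h k => h (key_inj k)
    have u2 : (strandUp (i + 1) ↔ M.x c < α (i + 1)) ↔ (strandUp i ↔ M.x c < α i) := by
      rw [← u, ← s1]
    rcases F.step M (i := i) (by omega) α hα s1 with a | a <;>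
      rcases F.step M (i := i + 1) (by omega) α hα s2 with b | b
    · exact ⟨fun h => (a.1 h).trans (b.1 (u2.2 h)),
        fun h => (b.2 (fun k => h (u2.1 k))).trans (a.2 h)⟩
    · constructor
      · intro h
        by_contra k
        exact b.2 i (by omega) (Or.inr ⟨lt_of_le_of_ne (not_lt.1 k) (ne1 _ _ (by omega)), a.1 h⟩)
      · intro h
        by_contra k
        exact b.2 i (by omega) (Or.inl ⟨a.2 h, lt_of_le_of_ne (not_lt.1 k) (ne1 _ _ (by omega))⟩)
    · constructor
      · intro h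
        by_contra k
        exact a.2 (i + 2) (by omega)
          (Or.inr ⟨b.1 (u2.2 h), lt_of_le_of_ne (not_lt.1 k) (ne1 _ _ (by omega))⟩)
      · intro h
        by_contra k
        exact a.2 (i + 2) (by omega)
          (Or.inl ⟨lt_of_le_of_ne (not_lt.1 k) (ne1 _ _ (by omega)), b.2 (fun k => h (u2.1 k))⟩)
    · exfalso
      have := a.1.symm.unique b.1 (fun h => by have := F.pe_inj (by omega) (by omega) h; omega)
        (fun h => by have := F.pe_inj (by omega) (by omega) h; omega)
      have := F.pe_inj (by omega) (by omega) this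
      omega

end FanData

end Pool.Agent.P.MP_c2502c_co
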