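import Mathlib
import Pool.Agent.P.MP_c2502c_co.Defs
import Pool.Agent.P.MP_c2502c_co.Fan

namespace Pool.Agent.P.MP_c2502c_co

open Set

lemma exists_graph {a b : ℝ × ℝ} (γ : Path a b) (hγ : StrictMono fun t : unitInterval => (γ t).2) :
    a.2 < b.2 ∧ ∃ X : ℝ → ℝ, Continuous X ∧ X a.2 = a.1 ∧ X b.2 = b.1 ∧
      ∀ h, a.2 < h → h < b.2 → ∃ t : unitInterval, t ≠ 0 ∧ t ≠ 1 ∧ γ t = (X h, h) := by
  have h01 : a.2 < b.2 := by
    have := hγ (show (0 : unitInterval) < 1 from zero_lt_one)
    simpa using this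
  refine ⟨h01, ?_⟩
  have hc : Continuous fun t : unitInterval => (γ t).2 := continuous_snd.comp γ.continuous
  have hmem : ∀ t : unitInterval, (γ t).2 ∈ Icc a.2 b.2 := fun t =>
    ⟨by simpa using hγ.monotone (unitInterval.nonneg' : (0 : unitInterval) ≤ t),
     by simpa using hγ.monotone (unitInterval.le_one' : t ≤ (1 : unitInterval))⟩
  let φ : unitInterval → Icc a.2 b.2 := fun t => ⟨(γ t).2, hmem t⟩
  have hφc : Continuous φ := hc.subtype_mk _
  have hφi : Function.Injective φ := fun s t h => hγ.injective (congrArg Subtype.val h)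
  have hφs : Function.Surjective φ := by
    rintro ⟨h, hh⟩
    have := intermediate_value_univ (0 : unitInterval) 1 hc
    obtain ⟨t, ht⟩ := this (show h ∈ Icc (γ 0).2 (γ 1).2 by simpa using hh)
    exact ⟨t, Subtype.ext ht⟩
  let e : unitInterval ≃ₜ Icc a.2 b.2 :=
    Continuous.homeoOfEquivCompactToT2 (f := Equiv.ofBijective φ ⟨hφi, hφs⟩) hφc
  have he : ∀ t, e t = φ t := fun t => rfl
  have key : ∀ h (hh : h ∈ Icc a.2 b.2), (γ (e.symm ⟨h, hh⟩)).2 = h := by
    intro h hh
    have := e.apply_symm_apply ⟨h, hh⟩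
    rw [he] at this
    exact congrArg Subtype.val this
  refine ⟨fun h => (γ (e.symm (projIcc a.2 b.2 h01.le h))).1, ?_, ?_, ?_, ?_⟩
  · exact continuous_fst.comp (γ.continuous.comp (e.symm.continuous.comp continuous_projIcc))
  · have : e.symm (projIcc a.2 b.2 h01.le a.2) = 0 := by
      rw [projIcc_left]
      apply hγ.injective
      simp only [key]
      simp
    simp only [this]
    simp
  · have : e.symm (projIcc a.2 b.2 h01.le b.2) = 1 := by
      rw [projIcc_right]
      apply hγ.injective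
      simp only [key]
      simp
    simp only [this]
    simp
  · intro h h1 h2
    have hh : h ∈ Icc a.2 b.2 := ⟨h1.le, h2.le⟩
    refine ⟨e.symm ⟨h, hh⟩, ?_, ?_, ?_⟩
    · intro h0
      have := key h hh
      rw [h0] at this
      simp at this
      linarith
    · intro h0
      have := key h hh
      rw [h0] at this
      simp at this
      linarith
    · simp only [projIcc_of_mem _ hh]
      exact Prod.ext rfl (key h hh)

theorem exists_model {V : Type} {E : V → V → Prop} (G : PlaneDrawing E) (hu : DrawnUpward G)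
    (h1 : AtMostCrossed G 1) : Nonempty (FModel E) := by
  have P : ∀ u v, ∃ X : ℝ → ℝ, ∀ h : E u v, Continuous X ∧ X (G.place u).2 = (G.place u).1 ∧
      X (G.place v).2 = (G.place v).1 ∧ ∀ z, (G.place u).2 < z → z < (G.place v).2 →
        ∃ t : unitInterval, t ≠ 0 ∧ t ≠ 1 ∧ G.curve u v h t = (X z, z) := by
    intro u v
    by_cases h : E u v
    · obtain ⟨-, X, hX⟩ := exists_graph (G.curve u v h) (hu u v h)
      exact ⟨X, fun _ => hX⟩
    · exact ⟨fun _ => 0, fun k => absurd k h⟩
  choose X hX using P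
  have mem : ∀ u v (h : E u v) z, (G.place u).2 < z → z < (G.place v).2 →
      (X u v z, z) ∈ openArcOf G u v h := by
    intro u v h z z1 z2
    obtain ⟨t, t0, t1, ht⟩ := (hX u v h).2.2.2 z z1 z2
    exact ⟨t, ⟨t0, t1⟩, ht⟩
  refine ⟨⟨fun v => (G.place v).1, fun v => (G.place v).2, X,
    fun u v h => (exists_graph (G.curve u v h) (hu u v h)).1,
    fun u v h => (hX u v h).1.continuousOn, fun u v h => (hX u v h).2.1,
    fun u v h => (hX u v h).2.2.1, fun u v a b => G.place_inj (Prod.ext a b), ?_, ?_⟩⟩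
  · intro u v w h z1 z2 hz
    obtain ⟨t, t0, t1, ht⟩ := (hX u v h).2.2.2 _ z1 z2
    exact G.curve_avoid u v h t w t0 t1 (ht.trans (Prod.ext hz rfl))
  · intro u v a b a' b' z z' e1 e2 e3 n1 n2 p1 p2 p3 p4 p5 q1 q2 q3 q4 q5
    have h2 := h1 u v e1
    rw [Nat.cast_one] at h2
    have := encard_le_one_iff.1 h2 ((a, b), (X u v z, z)) ((a', b'), (X u v z', z'))
      ⟨e2, n1, mem u v e1 z p1 p2, by rw [p5]; exact mem a b e2 z p3 p4⟩
      ⟨e3, n2, mem u v e1 z' q1 q2, by rw [q5]; exact mem a' b' e3 z' q3 q4⟩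
    exact congrArg Prod.fst this

end Pool.Agent.P.MP_c2502c_co
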