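import Mathlib
import Pool.Agent.P.MP_c2502c_co.Defs

namespace Pool.Agent.P.MP_c2502c_co

open Set

def spokeSet (i : ℕ) : Set (ℝ × ℝ) := {p | 0 < p.2 ∧ p.2 < 1 ∧ p.1 = i * p.2}
def rimSet (i : ℕ) : Set (ℝ × ℝ) := {p | p.2 = 1 ∧ (i : ℝ) < p.1 ∧ p.1 < i + 1}
def triSet (i : ℕ) : Set (ℝ × ℝ) := {p | p.2 < 1 ∧ i * p.2 < p.1 ∧ p.1 < (i + 1) * p.2}
def outSet (n : ℕ) : Set (ℝ × ℝ) := {p | 1 < p.2 ∨ p.1 < 0 ∨ ((n : ℝ) - 1) * p.2 < p.1}

def fanPlace {n : ℕ} : Option (Fin n) → ℝ × ℝ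
  | none => (0, 0)
  | some i => ((i.val : ℝ), 1)

lemma fanPlace_inj {n : ℕ} : Function.Injective (fanPlace (n := n)) := by
  rintro (_ | i) (_ | j) h
  · rfl
  · simp [fanPlace] at h
  · simp [fanPlace] at h
  · simp only [fanPlace, Prod.mk.injEq, Nat.cast_inj, and_true] at h
    rw [Fin.ext h]

lemma seg_mem (a b p : ℝ × ℝ) :
    p ∈ Path.segment a b '' {t : unitInterval | t ≠ 0 ∧ t ≠ 1} ↔
      ∃ t : ℝ, 0 < t ∧ t < 1 ∧ p.1 = a.1 + t * (b.1 - a.1) ∧ p.2 = a.2 + t * (b.2 - a.2) := by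
  constructor
  · rintro ⟨t, ⟨t0, t1⟩, rfl⟩
    refine ⟨t, lt_of_le_of_ne t.2.1 (fun h => t0 (Subtype.ext h.symm)),
      lt_of_le_of_ne t.2.2 (fun h => t1 (Subtype.ext h)), ?_, ?_⟩ <;>
    simp [AffineMap.lineMap_apply] <;> ring
  · rintro ⟨t, t0, t1, h1, h2⟩
    refine ⟨⟨t, t0.le, t1.le⟩, ⟨fun h => ?_, fun h => ?_⟩, ?_⟩
    · exact t0.ne' (congrArg Subtype.val h)
    · exact t1.ne (congrArg Subtype.val h)
    · ext
      · rw [h1]; simp [AffineMap.lineMap_apply]; ring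
      · rw [h2]; simp [AffineMap.lineMap_apply]; ring

lemma seg_up (i : ℕ) :
    Path.segment ((0, 0) : ℝ × ℝ) ((i : ℝ), 1) '' {t : unitInterval | t ≠ 0 ∧ t ≠ 1} =
      spokeSet i := by
  ext p
  rw [seg_mem]
  constructor
  · rintro ⟨t, t0, t1, h1, h2⟩
    simp only [sub_zero, zero_add, mul_one] at h1 h2
    exact ⟨by linarith, by linarith, by rw [h1, h2]; ring⟩
  · rintro ⟨h0, h1, h2⟩
    exact ⟨p.2, h0, h1, by rw [h2]; ring, by simp⟩

lemma seg_down (i : ℕ) :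
    Path.segment (((i : ℝ), 1) : ℝ × ℝ) (0, 0) '' {t : unitInterval | t ≠ 0 ∧ t ≠ 1} =
      spokeSet i := by
  ext p
  rw [seg_mem]
  constructor
  · rintro ⟨t, t0, t1, h1, h2⟩
    simp only at h1 h2
    exact ⟨by linarith, by linarith, by rw [h1, h2]; ring⟩
  · rintro ⟨h0, h1, h2⟩
    exact ⟨1 - p.2, by linarith, by linarith, by rw [h2]; ring, by simp⟩

lemma seg_right (i j : ℕ) (h : i + 1 = j) :
    Path.segment (((i : ℝ), 1) : ℝ × ℝ) ((j : ℝ), 1) '' {t : unitInterval | t ≠ 0 ∧ t ≠ 1} =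
      rimSet i := by
  ext p
  rw [seg_mem, ← h]
  push_cast
  constructor
  · rintro ⟨t, t0, t1, h1, h2⟩
    exact ⟨by linarith, by linarith, by linarith⟩
  · rintro ⟨h0, h1, h2⟩
    exact ⟨p.1 - i, by linarith, by linarith, by ring, by simp [h0]⟩

lemma seg_left (i j : ℕ) (h : i + 1 = j) :
    Path.segment (((j : ℝ), 1) : ℝ × ℝ) ((i : ℝ), 1) '' {t : unitInterval | t ≠ 0 ∧ t ≠ 1} =
      rimSet i := by
  ext p
  rw [seg_mem, ← h]
  push_cast
  constructor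
  · rintro ⟨t, t0, t1, h1, h2⟩
    exact ⟨by linarith, by linarith, by linarith⟩
  · rintro ⟨h0, h1, h2⟩
    exact ⟨i + 1 - p.1, by linarith, by linarith, by ring, by simp [h0]⟩

lemma cc_eq {F U W : Set (ℝ × ℝ)} {x : ℝ × ℝ} (hF : F = U ∪ W) (hU : IsOpen U) (hW : IsOpen W)
    (hd : Disjoint U W) (hc : IsPreconnected U) (hx : x ∈ U) : connectedComponentIn F x = U := by
  have hUF : U ⊆ F := by rw [hF]; exact subset_union_left
  refine Subset.antisymm ?_ (hc.subset_connectedComponentIn hx hUF)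
  refine IsPreconnected.subset_left_of_subset_union hU hW hd ?_ ⟨x, mem_connectedComponentIn
    (hUF hx), hx⟩ isPreconnected_connectedComponentIn
  rw [← hF]
  exact connectedComponentIn_subset F x

lemma tri_open (i : ℕ) : IsOpen (triSet i) := by
  have h1 : IsOpen {p : ℝ × ℝ | p.2 < 1} := isOpen_lt (by fun_prop) (by fun_prop)
  have h2 : IsOpen {p : ℝ × ℝ | i * p.2 < p.1} := isOpen_lt (by fun_prop) (by fun_prop)
  have h3 : IsOpen {p : ℝ × ℝ | p.1 < (i + 1) * p.2} := isOpen_lt (by fun_prop) (by fun_prop)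
  exact h1.inter (h2.inter h3)

lemma out_open (n : ℕ) : IsOpen (outSet n) := by
  have h1 : IsOpen {p : ℝ × ℝ | 1 < p.2} := isOpen_lt (by fun_prop) (by fun_prop)
  have h2 : IsOpen {p : ℝ × ℝ | p.1 < 0} := isOpen_lt (by fun_prop) (by fun_prop)
  have h3 : IsOpen {p : ℝ × ℝ | ((n : ℝ) - 1) * p.2 < p.1} := isOpen_lt (by fun_prop) (by fun_prop)
  exact h1.union (h2.union h3)

lemma half_convex (a b c : ℝ) : Convex ℝ {p : ℝ × ℝ | a * p.1 + b * p.2 < c} := by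
  have : IsLinearMap ℝ (fun p : ℝ × ℝ => a * p.1 + b * p.2) :=
    ⟨fun x y => by simp; ring, fun r x => by simp; ring⟩
  exact convex_halfSpace_lt this c

lemma tri_preconn (i : ℕ) : IsPreconnected (triSet i) := by
  have : triSet i = {p : ℝ × ℝ | 0 * p.1 + 1 * p.2 < 1} ∩
      ({p : ℝ × ℝ | (-1) * p.1 + i * p.2 < 0} ∩ {p : ℝ × ℝ | 1 * p.1 + (-(i + 1)) * p.2 < 0}) := by
    ext p
    simp only [triSet, mem_ofPred_eq, mem_inter_iff]
    constructor <;> rintro ⟨h1, h2, h3⟩ <;> exact ⟨by linarith, by linarith, by linarith⟩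
  rw [this]
  exact ((half_convex _ _ _).inter ((half_convex _ _ _).inter (half_convex _ _ _))).isPreconnected

lemma out_preconn {n : ℕ} (hn : 2 ≤ n) : IsPreconnected (outSet n) := by
  have hn' : (2 : ℝ) ≤ n := by exact_mod_cast hn
  have : outSet n = ({p : ℝ × ℝ | 0 * p.1 + (-1) * p.2 < -1} ∪
      {p : ℝ × ℝ | 1 * p.1 + 0 * p.2 < 0}) ∪ {p : ℝ × ℝ | (-1) * p.1 + (n - 1) * p.2 < 0} := by
    ext p
    simp only [outSet, mem_ofPred_eq, mem_union]
    constructor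
    · rintro (h | h | h)
      · exact Or.inl (Or.inl (by linarith))
      · exact Or.inl (Or.inr (by linarith))
      · exact Or.inr (by linarith)
    · rintro ((h | h) | h)
      · exact Or.inl (by linarith)
      · exact Or.inr (Or.inl (by linarith))
      · exact Or.inr (Or.inr (by linarith))
  rw [this]
  refine IsPreconnected.union ((-1, -2) : ℝ × ℝ) (Or.inr (by simp)) (by simp; linarith)
    (IsPreconnected.union ((-1, 2) : ℝ × ℝ) (by simp) (by simp)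
      (half_convex _ _ _).isPreconnected (half_convex _ _ _).isPreconnected)
    (half_convex _ _ _).isPreconnected

lemma tri_pos {i : ℕ} {p : ℝ × ℝ} (h : p ∈ triSet i) : 0 < p.2 := by
  obtain ⟨-, h2, h3⟩ := h
  linarith

lemma tri_disj {i j : ℕ} {p : ℝ × ℝ} (h : p ∈ triSet i) (h' : p ∈ triSet j) : i = j := by
  have h0 := tri_pos h
  obtain ⟨-, h2, h3⟩ := h
  obtain ⟨-, h4, h5⟩ := h'
  have a : (i : ℝ) < j + 1 := lt_of_mul_lt_mul_right (h2.trans h5) h0.le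
  have b : (j : ℝ) < i + 1 := lt_of_mul_lt_mul_right (h4.trans h3) h0.le
  have a' : i < j + 1 := by exact_mod_cast a
  have b' : j < i + 1 := by exact_mod_cast b
  omega

lemma tri_out {n i : ℕ} (hi : i + 1 < n) {p : ℝ × ℝ} (h : p ∈ triSet i) : p ∉ outSet n := by
  have h0 := tri_pos h
  obtain ⟨h1, h2, h3⟩ := h
  have hi' : (i : ℝ) + 1 ≤ n - 1 := by
    have : i + 2 ≤ n := hi
    have : ((i + 2 : ℕ) : ℝ) ≤ n := by exact_mod_cast this
    push_cast at this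
    linarith
  rintro (k | k | k)
  · linarith
  · have : 0 ≤ (i : ℝ) * p.2 := by positivity
    linarith
  · nlinarith

lemma tri_bounded (i : ℕ) : Bornology.IsBounded (triSet i) := by
  refine ((Metric.isBounded_Icc (0 : ℝ) (i + 1)).prod (Metric.isBounded_Icc (0 : ℝ) 1)).subset ?_
  intro p h
  have h0 := tri_pos h
  obtain ⟨h1, h2, h3⟩ := h
  have : 0 ≤ (i : ℝ) * p.2 := by positivity
  have h4 : (0 : ℝ) ≤ i := by positivity
  exact ⟨⟨by linarith, by nlinarith⟩, h0.le, h1.le⟩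

lemma out_unbounded (n : ℕ) : ¬ Bornology.IsBounded (outSet n) := by
  intro h
  obtain ⟨C, hC⟩ := h.exists_norm_le
  have := hC ((0, |C| + 2) : ℝ × ℝ) (Or.inl (by simp only; linarith [abs_nonneg C]))
  have h2 : ‖(|C| + 2 : ℝ)‖ ≤ ‖((0, |C| + 2) : ℝ × ℝ)‖ := norm_snd_le ((0, |C| + 2) : ℝ × ℝ)
  rw [Real.norm_eq_abs, abs_of_nonneg (by positivity)] at h2
  linarith [le_abs_self C]

lemma mem_closure_shift {S : Set (ℝ × ℝ)} {p v : ℝ × ℝ} {r : ℝ} (hr : 0 < r)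
    (h : ∀ δ : ℝ, 0 < δ → δ < r → p + δ • v ∈ S) : p ∈ closure S := by
  have ht : Filter.Tendsto (fun δ : ℝ => p + δ • v) (nhdsWithin 0 (Ioi 0)) (nhds p) := by
    have : Continuous fun δ : ℝ => p + δ • v := by fun_prop
    have := this.tendsto 0
    simp only [zero_smul, add_zero] at this
    exact this.mono_left nhdsWithin_le_nhds
  refine mem_closure_of_tendsto ht ?_
  filter_upwards [Ioo_mem_nhdsGT hr] with δ hδ using h δ hδ.1 hδ.2

lemma spoke_sub_left (i : ℕ) : spokeSet i ⊆ closure (triSet i) := by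
  rintro p ⟨h0, h1, h2⟩
  refine mem_closure_shift (v := (1, 0)) h0 fun δ a b => ?_
  simp only [triSet, mem_ofPred_eq, Prod.fst_add, Prod.snd_add, Prod.smul_mk, smul_eq_mul]
  exact ⟨by linarith, by linarith, by linarith⟩

lemma spoke_sub_right (i : ℕ) : spokeSet (i + 1) ⊆ closure (triSet i) := by
  rintro p ⟨h0, h1, h2⟩
  push_cast at h2
  refine mem_closure_shift (v := (-1, 0)) h0 fun δ a b => ?_
  simp only [triSet, mem_ofPred_eq, Prod.fst_add, Prod.snd_add, Prod.smul_mk, smul_eq_mul]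
  exact ⟨by linarith, by linarith, by linarith⟩

lemma closure_tri {i : ℕ} {p : ℝ × ℝ} (h : p ∈ closure (triSet i)) :
    i * p.2 ≤ p.1 ∧ p.1 ≤ (i + 1) * p.2 := by
  have h1 : IsClosed {p : ℝ × ℝ | i * p.2 ≤ p.1} := isClosed_le (by fun_prop) (by fun_prop)
  have h2 : IsClosed {p : ℝ × ℝ | p.1 ≤ (i + 1) * p.2} := isClosed_le (by fun_prop) (by fun_prop)
  exact ⟨closure_minimal (fun q hq => hq.2.1.le) h1 h, closure_minimal (fun q hq => hq.2.2.le) h2 h⟩

lemma closure_tri_two {i j : ℕ} {p : ℝ × ℝ} (h0 : 0 < p.2) (h : p ∈ closure (triSet i))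
    (h' : p ∈ closure (triSet j)) : j ≤ i + 1 := by
  have a : (j : ℝ) ≤ i + 1 :=
    le_of_mul_le_mul_right ((closure_tri h').1.trans (closure_tri h).2) h0
  exact_mod_cast a

lemma cover_plane {n : ℕ} (hn : 2 ≤ n) (p : ℝ × ℝ) (hp : p ∉ outSet n) :
    p = (0, 0) ∨ (∃ i < n, p = ((i : ℝ), 1)) ∨ (∃ i < n, p ∈ spokeSet i) ∨
      (∃ i, i + 1 < n ∧ p ∈ rimSet i) ∨ (∃ i, i + 1 < n ∧ p ∈ triSet i) := by
  have hn' : (2 : ℝ) ≤ n := by exact_mod_cast hn
  simp only [outSet, mem_ofPred_eq, not_or, not_lt] at hp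
  obtain ⟨h1, h2, h3⟩ := hp
  have h0 : 0 ≤ p.2 := by
    by_contra h
    have := not_le.1 h
    nlinarith
  rcases h0.eq_or_lt with h0 | h0
  · left
    rw [← h0] at h3
    exact Prod.ext (by simp only; linarith) h0.symm
  obtain ⟨r, hr⟩ : ∃ r, r = p.1 / p.2 := ⟨_, rfl⟩
  have hr1 : p.1 = r * p.2 := by rw [hr]; field_simp
  have r0 : 0 ≤ r := by rw [hr]; positivity
  have r1 : r ≤ n - 1 := by rw [hr, div_le_iff₀ h0]; exact h3
  have f1 : (⌊r⌋₊ : ℝ) ≤ r := Nat.floor_le r0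
  have f2 : r < ⌊r⌋₊ + 1 := Nat.lt_floor_add_one r
  rcases f1.eq_or_lt with f1 | f1
  · have : ⌊r⌋₊ < n := by
      have : (⌊r⌋₊ : ℝ) < n := by linarith
      exact_mod_cast this
    rcases h1.eq_or_lt with h1 | h1
    · exact Or.inr (Or.inl ⟨_, this, Prod.ext (by rw [hr1, h1, f1]; simp) h1⟩)
    · exact Or.inr (Or.inr (Or.inl ⟨_, this, h0, h1, by rw [hr1, f1]⟩))
  · have : ⌊r⌋₊ + 1 < n := by
      have : (⌊r⌋₊ : ℝ) + 1 < n := by linarith
      exact_mod_cast this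
    rcases h1.eq_or_lt with h1 | h1
    · refine Or.inr (Or.inr (Or.inr (Or.inl ⟨_, this, h1, ?_, ?_⟩))) <;> rw [hr1, h1] <;> linarith
    · refine Or.inr (Or.inr (Or.inr (Or.inr ⟨_, this, h1, ?_, ?_⟩))) <;> rw [hr1]
      · exact mul_lt_mul_of_pos_right f1 h0
      · exact mul_lt_mul_of_pos_right f2 h0

end Pool.Agent.P.MP_c2502c_co
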