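import Mathlib
import Pool.Agent.P.MP_c2502c_co.Bridge
import Pool.Agent.P.MP_c2502c_co.Outer

namespace Pool.Agent.P.MP_c2502c_co

open Set

section outer

variable {n : ℕ} {D : Option (Fin n) → Option (Fin n) → Prop}

lemma arc_cases (h0 : ¬ D none none)
    (hr : ∀ i j : Fin n, D (some i) (some j) → i.val + 1 = j.val ∨ j.val + 1 = i.val)
    (u v : Option (Fin n)) (h : D u v) :
    (∃ i : Fin n, ((u, v) = (none, some i) ∨ (u, v) = (some i, none)) ∧
      Path.segment (fanPlace u) (fanPlace v) '' {t : unitInterval | t ≠ 0 ∧ t ≠ 1} = spokeSet i) ∨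
    (∃ i j : Fin n, i.val + 1 = j.val ∧ ((u, v) = (some i, some j) ∨ (u, v) = (some j, some i)) ∧
      Path.segment (fanPlace u) (fanPlace v) '' {t : unitInterval | t ≠ 0 ∧ t ≠ 1} = rimSet i) := by
  rcases u with _ | i <;> rcases v with _ | j
  · exact absurd h h0
  · exact Or.inl ⟨j, Or.inl rfl, seg_up j⟩
  · exact Or.inl ⟨i, Or.inr rfl, seg_down i⟩
  · rcases hr i j h with k | k
    · exact Or.inr ⟨i, j, k, Or.inl rfl, seg_right i j k⟩
    · exact Or.inr ⟨j, i, k, Or.inr rfl, seg_left j i k⟩

lemma place_not_spoke (w : Option (Fin n)) (i : ℕ) : fanPlace w ∉ spokeSet i := by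
  rcases w with _ | j <;> simp [fanPlace, spokeSet]

lemma place_not_rim (w : Option (Fin n)) (i : ℕ) : fanPlace w ∉ rimSet i := by
  rcases w with _ | j
  · simp [fanPlace, rimSet]
  · rintro ⟨-, h1, h2⟩
    have a : i < j.val := by exact_mod_cast (show (i : ℝ) < (j.val : ℝ) from h1)
    have b : j.val < i + 1 := by exact_mod_cast (show (j.val : ℝ) < i + 1 from h2)
    omega

noncomputable def fanDrawing (h0 : ∀ v, ¬ D v v)
    (hr : ∀ i j : Fin n, D (some i) (some j) → i.val + 1 = j.val ∨ j.val + 1 = i.val) :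
    PlaneDrawing D where
  place := fanPlace
  place_inj := fanPlace_inj
  curve := fun u v _ => Path.segment (fanPlace u) (fanPlace v)
  curve_inj := fun u v h => Path.segment_injective_of_ne fun k => by
    rw [fanPlace_inj k] at h
    exact h0 v h
  curve_avoid := fun u v h t w t0 t1 k => by
    have hm : fanPlace w ∈
        Path.segment (fanPlace u) (fanPlace v) '' {t : unitInterval | t ≠ 0 ∧ t ≠ 1} :=
      ⟨t, ⟨t0, t1⟩, k⟩
    rcases arc_cases (h0 _) hr u v h with ⟨i, -, e⟩ | ⟨i, j, -, -, e⟩ <;> rw [e] at hm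
    · exact place_not_spoke w i hm
    · exact place_not_rim w i hm

theorem fan_outerpath (hn : 2 ≤ n) (ha : ∀ u v, D u v → ¬ D v u)
    (hs : ∀ i : Fin n, D none (some i) ∨ D (some i) none)
    (hr : ∀ i j : Fin n, D (some i) (some j) ∨ D (some j) (some i) ↔
      i.val + 1 = j.val ∨ j.val + 1 = i.val) : IsOuterpathGraph D := by
  have h0 : ∀ v, ¬ D v v := fun v h => ha v v h h
  have hr' : ∀ i j : Fin n, D (some i) (some j) → i.val + 1 = j.val ∨ j.val + 1 = i.val :=
    fun i j h => (hr i j).1 (Or.inl h)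
  obtain ⟨G, hG⟩ : ∃ G, G = fanDrawing h0 hr' := ⟨_, rfl⟩
  have hpl : G.place = fanPlace := by rw [hG]; rfl
  have cases : ∀ u v (h : D u v),
      (∃ i : Fin n, ((u, v) = (none, some i) ∨ (u, v) = (some i, none)) ∧
        openArcOf G u v h = spokeSet i) ∨
      (∃ i j : Fin n, i.val + 1 = j.val ∧ ((u, v) = (some i, some j) ∨ (u, v) = (some j, some i)) ∧
        openArcOf G u v h = rimSet i) := by
    intro u v h
    rw [hG]
    exact arc_cases (h0 _) hr' u v h
  have exS : ∀ i < n, ∃ u v h, openArcOf G u v h = spokeSet i := by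
    intro i hi
    rcases hs ⟨i, hi⟩ with h | h
    · exact ⟨_, _, h, by rw [hG]; exact seg_up i⟩
    · exact ⟨_, _, h, by rw [hG]; exact seg_down i⟩
  have exR : ∀ i, i + 1 < n → ∃ u v h, openArcOf G u v h = rimSet i := by
    intro i hi
    rcases (hr ⟨i, by omega⟩ ⟨i + 1, hi⟩).2 (Or.inl rfl) with h | h
    · exact ⟨_, _, h, by rw [hG]; exact seg_right i (i + 1) rfl⟩
    · exact ⟨_, _, h, by rw [hG]; exact seg_left i (i + 1) rfl⟩
  obtain ⟨K, hK⟩ : ∃ K, K = range G.place ∪ {p | ∃ u v h, p ∈ openArcOf G u v h} := ⟨_, rfl⟩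
  have memK : ∀ p, p ∈ K ↔ (p = (0, 0) ∨ (∃ i < n, p = ((i : ℝ), 1)) ∨
      (∃ i < n, p ∈ spokeSet i) ∨ (∃ i, i + 1 < n ∧ p ∈ rimSet i)) := by
    intro p
    rw [hK, hpl]
    constructor
    · rintro (⟨_ | i, rfl⟩ | ⟨u, v, h, hp⟩)
      · exact Or.inl rfl
      · exact Or.inr (Or.inl ⟨i, i.2, rfl⟩)
      · rcases cases u v h with ⟨i, -, e⟩ | ⟨i, j, k, -, e⟩ <;> rw [e] at hp
        · exact Or.inr (Or.inr (Or.inl ⟨i, i.2, hp⟩))
        · exact Or.inr (Or.inr (Or.inr ⟨i, by have := j.2; omega, hp⟩))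
    · rintro (rfl | ⟨i, hi, rfl⟩ | ⟨i, hi, hp⟩ | ⟨i, hi, hp⟩)
      · exact Or.inl ⟨none, rfl⟩
      · exact Or.inl ⟨some ⟨i, hi⟩, rfl⟩
      · obtain ⟨u, v, h, e⟩ := exS i hi
        exact Or.inr ⟨u, v, h, e ▸ hp⟩
      · obtain ⟨u, v, h, e⟩ := exR i hi
        exact Or.inr ⟨u, v, h, e ▸ hp⟩
  have hn' : (2 : ℝ) ≤ n := by exact_mod_cast hn
  have le_n : ∀ i < n, (i : ℝ) ≤ n - 1 := by
    intro i hi
    have : ((i + 1 : ℕ) : ℝ) ≤ n := by exact_mod_cast hi
    push_cast at this
    linarith
  have compl : ∀ p, p ∈ Kᶜ ↔ (p ∈ outSet n ∨ ∃ i, i + 1 < n ∧ p ∈ triSet i) := by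
    intro p
    rw [mem_compl_iff, memK]
    constructor
    · intro h
      by_cases ho : p ∈ outSet n
      · exact Or.inl ho
      · rcases cover_plane hn p ho with k | k | k | k | k
        · exact absurd (Or.inl k) h
        · exact absurd (Or.inr (Or.inl k)) h
        · exact absurd (Or.inr (Or.inr (Or.inl k))) h
        · exact absurd (Or.inr (Or.inr (Or.inr k))) h
        · exact Or.inr k
    · rintro (ho | ⟨j, hj, ht⟩) (rfl | ⟨i, hi, rfl⟩ | ⟨i, hi, a, b, c⟩ | ⟨i, hi, a, b, c⟩)
      · simp [outSet] at ho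
        linarith
      · have := le_n i hi
        have h2 : (0 : ℝ) ≤ i := by positivity
        rcases ho with k | k | k <;> simp only at k <;> linarith
      · have := le_n i hi
        have h2 : (0 : ℝ) ≤ i * p.2 := by positivity
        rcases ho with k | k | k
        · linarith
        · linarith
        · nlinarith
      · have := le_n (i + 1) hi
        push_cast at this
        have h2 : (0 : ℝ) ≤ i := by positivity
        rcases ho with k | k | k
        · linarith
        · linarith
        · rw [a] at k; linarith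
      · exact lt_irrefl _ (tri_pos ht)
      · exact lt_irrefl _ ht.1
      · obtain ⟨-, t2, t3⟩ := ht
        rw [c] at t2 t3
        have a1 : j < i := by exact_mod_cast lt_of_mul_lt_mul_right t2 a.le
        have a2 : i < j + 1 := by exact_mod_cast lt_of_mul_lt_mul_right t3 a.le
        omega
      · exact absurd ht.1 (by rw [a]; exact lt_irrefl _)
  have ccO : ∀ x ∈ outSet n, connectedComponentIn Kᶜ x = outSet n := by
    intro x hx
    refine cc_eq (W := ⋃ i ∈ {i | i + 1 < n}, triSet i) ?_ (out_open n)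
      (isOpen_biUnion fun i _ => tri_open i) ?_ (out_preconn hn) hx
    · ext p
      rw [compl]
      simp
    · rw [disjoint_left]
      intro p hp hq
      simp only [mem_ofPred_eq, mem_iUnion, exists_prop] at hq
      obtain ⟨i, hi, hq⟩ := hq
      exact tri_out hi hq hp
  have ccT : ∀ i, i + 1 < n → ∀ x ∈ triSet i, connectedComponentIn Kᶜ x = triSet i := by
    intro i hi x hx
    refine cc_eq (W := outSet n ∪ ⋃ j ∈ {j | j + 1 < n ∧ j ≠ i}, triSet j) ?_ (tri_open i)
      ((out_open n).union (isOpen_biUnion fun i _ => tri_open i)) ?_ (tri_preconn i) hx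
    · ext p
      rw [compl]
      simp only [mem_union, mem_ofPred_eq, mem_iUnion, exists_prop]
      constructor
      · rintro (h | ⟨j, hj, h⟩)
        · exact Or.inr (Or.inl h)
        · by_cases e : j = i
          · exact Or.inl (e ▸ h)
          · exact Or.inr (Or.inr ⟨j, ⟨hj, e⟩, h⟩)
      · rintro (h | h | ⟨j, hj, h⟩)
        · exact Or.inr ⟨i, hi, h⟩
        · exact Or.inl h
        · exact Or.inr ⟨j, hj.1, h⟩
    · rw [disjoint_left]
      intro p hp hq
      simp only [mem_union, mem_ofPred_eq, mem_iUnion, exists_prop] at hq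
      rcases hq with hq | ⟨j, hj, hq⟩
      · exact tri_out hi hp hq
      · exact hj.2 (tri_disj hq hp)
  have triPt : ∀ i : ℕ, (((i : ℝ) + 1 / 2) / 2, (1 / 2 : ℝ)) ∈ triSet i := fun i =>
    ⟨by norm_num, by simp only; linarith, by simp only; linarith⟩
  have faces : ∀ F, F ∈ facesOf G ↔ (F = outSet n ∨ ∃ i, i + 1 < n ∧ F = triSet i) := by
    intro F
    unfold facesOf
    rw [← hK]
    constructor
    · rintro ⟨x, hx, rfl⟩
      rcases (compl x).1 hx with h | ⟨i, hi, h⟩
      · exact Or.inl (ccO x h)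
      · exact Or.inr ⟨i, hi, ccT i hi x h⟩
    · rintro (rfl | ⟨i, hi, rfl⟩)
      · have : ((0, 2) : ℝ × ℝ) ∈ outSet n := Or.inl (by norm_num)
        exact ⟨_, (compl _).2 (Or.inl this), (ccO _ this).symm⟩
      · exact ⟨_, (compl _).2 (Or.inr ⟨i, hi, triPt i⟩), (ccT i hi _ (triPt i)).symm⟩
  refine ⟨G, ?_, ⟨outSet n, (faces _).2 (Or.inl rfl), out_unbounded n, ?_⟩,
    n - 1, fun i => triSet i, ?_, ?_, ?_⟩
  · intro u v h
    rw [Nat.cast_zero, nonpos_iff_eq_zero, encard_eq_zero, eq_empty_iff_forall_notMem]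
    rintro ⟨⟨a, b⟩, p⟩ ⟨h', hne, p1, p2⟩
    simp only at h' hne p1 p2
    rcases cases u v h with ⟨i, hi, e⟩ | ⟨i, j, k, hi, e⟩ <;>
      rcases cases a b h' with ⟨i', hi', e'⟩ | ⟨i', j', k', hi', e'⟩ <;>
      rw [e] at p1 <;> rw [e'] at p2
    · have : i = i' := by
        have := mul_right_cancel₀ p1.1.ne' (p1.2.2.symm.trans p2.2.2)
        exact Fin.ext (by exact_mod_cast this)
      subst this
      simp only [Prod.mk.injEq] at hi hi'
      rcases hi with ⟨rfl, rfl⟩ | ⟨rfl, rfl⟩ <;> rcases hi' with ⟨rfl, rfl⟩ | ⟨rfl, rfl⟩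
      · exact hne rfl
      · exact ha _ _ h h'
      · exact ha _ _ h h'
      · exact hne rfl
    · exact absurd p1.2.1 (by rw [p2.1]; exact lt_irrefl _)
    · exact absurd p2.2.1 (by rw [p1.1]; exact lt_irrefl _)
    · have a1 : i.val < i'.val + 1 := by exact_mod_cast p1.2.1.trans p2.2.2
      have a2 : i'.val < i.val + 1 := by exact_mod_cast p2.2.1.trans p1.2.2
      obtain rfl : i = i' := Fin.ext (by omega)
      obtain rfl : j = j' := Fin.ext (by omega)
      simp only [Prod.mk.injEq] at hi hi'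
      rcases hi with ⟨rfl, rfl⟩ | ⟨rfl, rfl⟩ <;> rcases hi' with ⟨rfl, rfl⟩ | ⟨rfl, rfl⟩
      · exact hne rfl
      · exact ha _ _ h h'
      · exact ha _ _ h h'
      · exact hne rfl
  · intro v
    rw [hpl]
    rcases v with _ | i
    · refine mem_closure_shift (v := (-1, 0)) one_pos fun δ a _ => Or.inr (Or.inl ?_)
      simpa [fanPlace] using a
    · refine mem_closure_shift (v := (0, 1)) one_pos fun δ a _ => Or.inl ?_
      simpa [fanPlace] using a
  · intro i j h
    have : (((i.val : ℝ) + 1 / 2) / 2, (1 / 2 : ℝ)) ∈ triSet j := by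
      have := triPt i
      simp only at h
      rwa [h] at this
    exact Fin.ext (tri_disj (triPt i) this)
  · ext F
    simp only [mem_range, faces]
    constructor
    · rintro ⟨i, rfl⟩
      exact ⟨Or.inr ⟨i, by have := i.2; omega, rfl⟩, tri_bounded _⟩
    · rintro ⟨rfl | ⟨i, hi, rfl⟩, hb⟩
      · exact absurd hb (out_unbounded n)
      · exact ⟨⟨i, by omega⟩, rfl⟩
  · intro i j hij
    have hij' : i.val ≠ j.val := fun h => hij (Fin.ext h)
    constructor
    · rintro ⟨u, v, h, hsub⟩
      have : ∃ p ∈ openArcOf G u v h, 0 < p.2 := by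
        rcases cases u v h with ⟨k, -, e⟩ | ⟨k, l, -, -, e⟩ <;> rw [e]
        · exact ⟨((k.val : ℝ) * (1 / 2), 1 / 2), ⟨by norm_num, by norm_num, rfl⟩, by norm_num⟩
        · exact ⟨((k.val : ℝ) + 1 / 2, 1), ⟨rfl, by norm_num, by norm_num⟩, by norm_num⟩
      obtain ⟨p, hp, h0⟩ := this
      have a := closure_tri_two h0 (hsub hp).1 (hsub hp).2
      have b := closure_tri_two h0 (hsub hp).2 (hsub hp).1
      omega
    · have hi := i.2
      have hj := j.2
      rintro (k | k)
      · obtain ⟨u, v, h, e⟩ := exS j (by omega)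
        refine ⟨u, v, h, e ▸ subset_inter ?_ (spoke_sub_left _)⟩
        rw [← k]; exact spoke_sub_right _
      · obtain ⟨u, v, h, e⟩ := exS i (by omega)
        refine ⟨u, v, h, e ▸ subset_inter (spoke_sub_left _) ?_⟩
        rw [← k]; exact spoke_sub_right _

end outer

/-- the oriented fan -/
def fanD (n : ℕ) : Option (Fin n) → Option (Fin n) → Prop
  | none, none => False
  | none, some k => (k.val / 3) % 2 = 0
  | some k, none => (k.val / 3) % 2 = 1
  | some i, some j => (i.val + 1 = j.val ∧ fwd i) ∨ (j.val + 1 = i.val ∧ ¬ fwd j)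

open Classical in
noncomputable def level (k : ℕ) : ℤ :=
  if strandUp (k / 3 - 1) then 1 + (k % 3 : ℕ) else 3 - (k % 3 : ℕ)

noncomputable def height {n : ℕ} : Option (Fin n) → ℤ
  | none => 0
  | some k => if (k.val / 3) % 2 = 0 then level k else - level k

lemma level_pos (k : ℕ) : 0 < level k := by
  unfold level
  split_ifs <;> omega

lemma height_lt {n : ℕ} (u v : Option (Fin n)) (h : fanD n u v) : height u < height v := by
  rcases u with _ | i <;> rcases v with _ | j
  · exact h.elim
  · have := level_pos j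
    simp only [fanD] at h
    simp only [height, h, if_true]
    exact this
  · have := level_pos i
    simp only [fanD] at h
    simp only [height, h]
    simpa using this
  · have a := level_pos i
    have b := level_pos j
    simp only [fanD, fwd] at h
    simp only [height]
    rcases h with ⟨k, h | h⟩ | ⟨k, h⟩
    · rw [if_neg (by omega), if_pos (by omega)]; omega
    · have e : j.val / 3 = i.val / 3 := by omega
      unfold level
      rw [e]
      by_cases u : strandUp (i.val / 3 - 1)
      · have := h.2.1 u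
        simp only [this, u, if_true]; omega
      · have : ¬ (i.val / 3 % 2 = 0) := fun q => u (h.2.2 q)
        simp only [this, u, if_false]; omega
    · by_cases q : j.val % 3 = 2
      · have : ¬ (j.val / 3 % 2 = 1) := fun r => h (Or.inl ⟨q, r⟩)
        rw [if_neg (by omega), if_pos (by omega)]; omega
      · have e : i.val / 3 = j.val / 3 := by omega
        have h' : ¬ (strandUp (j.val / 3 - 1) ↔ j.val / 3 % 2 = 0) := fun r => h (Or.inr ⟨q, r⟩)
        unfold level
        rw [e]
        by_cases u : strandUp (j.val / 3 - 1)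
        · have : ¬ (j.val / 3 % 2 = 0) := fun q => h' (iff_of_true u q)
          simp only [this, u, if_true, if_false]; omega
        · have : j.val / 3 % 2 = 0 := by
            by_contra q
            exact h' (iff_of_false u q)
          simp only [this, u, if_true, if_false]; omega

theorem main : ∃ (n : ℕ) (D : Option (Fin n) → Option (Fin n) → Prop),
    (∀ v, ¬ Relation.TransGen D v v) ∧
    (∀ i : Fin n, D none (some i) ∨ D (some i) none) ∧
    (∀ i j : Fin n, D (some i) (some j) ∨ D (some j) (some i) ↔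
      i.val + 1 = j.val ∨ j.val + 1 = i.val) ∧
    IsOuterpathGraph D ∧
    ¬ ∃ G : PlaneDrawing D, DrawnUpward G ∧ AtMostCrossed G 1 := by
  obtain ⟨N, hN⟩ : ∃ N : ℕ, N = 1999999998 := ⟨_, rfl⟩
  have hs : ∀ i : Fin (3 * N + 6), fanD _ none (some i) ∨ fanD _ (some i) none := by
    intro i
    simp only [fanD]
    omega
  have hr : ∀ i j : Fin (3 * N + 6), fanD _ (some i) (some j) ∨ fanD _ (some j) (some i) ↔
      i.val + 1 = j.val ∨ j.val + 1 = i.val := by
    intro i j
    simp only [fanD]
    tauto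
  refine ⟨3 * N + 6, fanD _, ?_, hs, hr, fan_outerpath (by omega) ?_ hs hr, ?_⟩
  · have : ∀ u v, Relation.TransGen (fanD (3 * N + 6)) u v → height u < height v := by
      intro u v h
      induction h with
      | single h => exact height_lt _ _ h
      | tail _ h ih => exact ih.trans (height_lt _ _ h)
    exact fun v h => lt_irrefl _ (this v v h)
  · exact fun u v h h' => lt_asymm (height_lt _ _ h) (height_lt _ _ h')
  · rintro ⟨G, hu, h1⟩
    obtain ⟨M⟩ := exists_model G hu h1
    refine FanData.no_model (c := none)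
      (p := fun k => if h : k < 3 * N + 6 then some ⟨k, h⟩ else none) (N := N) ?_ hN M
    refine ⟨?_, ?_, ?_, ?_, ?_, ?_⟩
    · intro i hi j hj h
      simpa [hi, hj] using h
    · intro i hi
      simp [hi]
    · intro k hk h
      simpa [hk, fanD] using h
    · intro k hk h
      simpa [hk, fanD] using h
    · intro k hk h
      have hk' : k < 3 * N + 6 := by omega
      simp only [dif_pos hk, dif_pos hk', fanD]
      exact Or.inl ⟨trivial, h⟩
    · intro k hk h
      have hk' : k < 3 * N + 6 := by omega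
      simp only [dif_pos hk, dif_pos hk', fanD]
      exact Or.inr ⟨trivial, h⟩

end Pool.Agent.P.MP_c2502c_co
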